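import Pool.Agent.MP_47b204_mp.H45.Dyn

set_option autoImplicit false

namespace Pool.Agent.MP_47b204_mp.H45

open Filter Topology Set

/-- difference of the next half traces -/
def dc (s t v : St) : ℝ := (s.2.2 + t.2.2) * v.2.1 + (s.2.1 + t.2.1) * v.2.2 - v.1

/-- difference of the second next half traces -/
def de (s t v : St) : ℝ := (cc s + cc t) * v.2.2 + (s.2.2 + t.2.2) * dc s t v - v.2.1

/-- the linear cocycle acting on differences of states -/
def AA : Fin 3 → St → St → St → St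
  | 0, s, t, v => (-dc s t v, -de s t v,
      ((2 * cc s * s.2.2 - s.2.1) + (2 * cc t * t.2.2 - t.2.1)) * dc s t v
        + (cc s + cc t) * de s t v - v.2.2)
  | 1, s, t, v => (v.2.2, dc s t v, de s t v)
  | 2, s, t, v => (-v.2.2, -dc s t v, de s t v)

lemma FF_sub (i : Fin 3) (s t : St) : FF i s - FF i t = AA i s t (s - t) := by
  rcases fin3 i with rfl | rfl | rfl <;>
    simp only [FF, AA, de, dc, cc, Prod.mk_sub_mk, Prod.fst_sub, Prod.snd_sub, Prod.mk.injEq] <;>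
    refine ⟨?_, ?_, ?_⟩ <;> first | trivial | ring

lemma AA_smul (i : Fin 3) (s t v : St) (c : ℝ) : AA i s t (c • v) = c • AA i s t v := by
  rcases fin3 i with rfl | rfl | rfl <;>
    simp only [AA, de, dc, Prod.smul_mk, Prod.smul_fst, Prod.smul_snd, smul_eq_mul, Prod.mk.injEq] <;>
    refine ⟨?_, ?_, ?_⟩ <;> first | trivial | ring

lemma AA_sub (i : Fin 3) (s t v w : St) : AA i s t v - AA i s t w = AA i s t (v - w) := by
  rcases fin3 i with rfl | rfl | rfl <;>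
    simp only [AA, de, dc, Prod.mk_sub_mk, Prod.fst_sub, Prod.snd_sub, Prod.mk.injEq] <;>
    refine ⟨?_, ?_, ?_⟩ <;> first | trivial | ring

/-- lower bound for the growth factor -/
def gW (W : ℝ) : Fin 3 → ℝ
  | 0 => W ^ 2
  | 1 => W
  | 2 => W

lemma le_gW {W : ℝ} (hW : 100 ≤ W) (i : Fin 3) : W ≤ gW W i := by
  rcases fin3 i with rfl | rfl | rfl <;> simp only [gW] <;> nlinarith

/-- position of the last coordinate for each branch -/
lemma b_range {W : ℝ} (hW : 100 ≤ W) {s : St} (hs : Rg W s) :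
    (Rg W (FF 0 s) → |s.2.2| ≤ 1 / 100) ∧ (Rg W (FF 1 s) → 9 / 20 ≤ s.2.2) ∧
      (Rg W (FF 2 s) → s.2.2 ≤ -(9 / 20)) := by
  obtain ⟨a, L, b⟩ := s
  simp only [Rg, FF, cc, abs_le] at *
  obtain ⟨⟨a1, a2⟩, ⟨b1, b2⟩, L1, L2⟩ := hs
  refine ⟨fun h => ⟨?_, ?_⟩, fun h => ?_, fun h => ?_⟩
  · by_contra hc; push Not at hc; nlinarith [h.1.1, h.1.2]
  · by_contra hc; push Not at hc; nlinarith [h.1.1, h.1.2]
  · by_contra hc; push Not at hc; nlinarith [h.2.2.1]
  · by_contra hc; push Not at hc; nlinarith [h.2.2.1]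

lemma separation {W : ℝ} (hW : 100 ≤ W) {s t : St} (hs : Rg W s) (ht : Rg W t) {i j : Fin 3}
    (hi : Rg W (FF i s)) (hj : Rg W (FF j t)) (hij : i ≠ j) : 2 / 5 ≤ |s.2.2 - t.2.2| := by
  obtain ⟨s0, s1, s2⟩ := b_range hW hs
  obtain ⟨t0, t1, t2⟩ := b_range hW ht
  rcases fin3 i with rfl | rfl | rfl <;> rcases fin3 j with rfl | rfl | rfl <;>
    first
    | exact absurd rfl hij
    | (rw [le_abs]
       first
       | (have := abs_le.1 (s0 hi); first | (have := t1 hj; right; linarith) | (have := t2 hj; left; linarith))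
       | (have := abs_le.1 (t0 hj); first | (have := s1 hi; left; linarith) | (have := s2 hi; right; linarith))
       | (have := s1 hi; have := t2 hj; left; linarith)
       | (have := s2 hi; have := t1 hj; right; linarith))

lemma abs_mul_le {x y A B : ℝ} (hx : |x| ≤ A) (hy : |y| ≤ B) : |x * y| ≤ A * B := by
  rw [abs_mul]
  exact mul_le_mul hx hy (abs_nonneg _) ((abs_nonneg _).trans hx)

/-- growth and cone invariance -/
lemma cone_step {W : ℝ} (hW : 100 ≤ W) {s t : St} (hs : Rg W s) (ht : Rg W t) {i : Fin 3}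
    (hs' : Rg W (FF i s)) (ht' : Rg W (FF i t)) {u w : ℝ} (hu : |u| ≤ 1) (hw : |w| ≤ 1) :
    gW W i ≤ |(AA i s t (u, w, 1)).2.2| ∧ |(AA i s t (u, w, 1)).2.2| ≤ 10 * W ^ 2 ∧
      |(AA i s t (u, w, 1)).1| ≤ |(AA i s t (u, w, 1)).2.2| ∧
      |(AA i s t (u, w, 1)).2.1| ≤ |(AA i s t (u, w, 1)).2.2| := by
  have hW2 : 100 * W ≤ W ^ 2 := by nlinarith
  obtain ⟨-, s1, s2⟩ := b_range hW hs
  obtain ⟨-, t1, t2⟩ := b_range hW ht
  obtain ⟨-, sb, sL, sL'⟩ := hs
  obtain ⟨-, tb, tL, tL'⟩ := ht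
  have hB : |s.2.2 + t.2.2| ≤ 2 := (abs_add_le _ _).trans (by linarith)
  have hBw := abs_le.1 (abs_mul_le hB hw)
  have hu' := abs_le.1 hu
  have hw' := abs_le.1 hw
  have hB' := abs_le.1 hB
  have d1 : 2 * W - 3 ≤ dc s t (u, w, 1) := by simp only [dc]; linarith [hBw.1]
  have d2 : dc s t (u, w, 1) ≤ 2 * W + 13 := by simp only [dc]; linarith [hBw.2]
  have dabs : |dc s t (u, w, 1)| ≤ 2 * W + 13 := abs_le.2 ⟨by linarith, d2⟩
  rcases fin3 i with rfl | rfl | rfl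
  · simp only [FF, Rg, abs_neg] at hs' ht'
    have hC : |cc s + cc t| ≤ 2 := (abs_add_le _ _).trans (by linarith [hs'.1, ht'.1])
    have hC' := abs_le.1 hC
    have hBd := abs_le.1 (abs_mul_le hB dabs)
    have eabs : |de s t (u, w, 1)| ≤ 4 * W + 29 := by
      simp only [de, abs_le]; constructor <;> linarith [hBd.1, hBd.2]
    have hCe := abs_le.1 (abs_mul_le hC eabs)
    simp only [AA, gW, abs_neg]
    set Λ := (2 * cc s * s.2.2 - s.2.1) + (2 * cc t * t.2.2 - t.2.1) with hΛ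
    have l1 : Λ ≤ -(2 * W) := by linarith [hs'.2.2.1, ht'.2.2.1]
    have l2 : -(2 * W + 10) ≤ Λ := by linarith [hs'.2.2.2, ht'.2.2.2]
    have m1 : (2 * W) * (2 * W - 3) ≤ (-Λ) * dc s t (u, w, 1) :=
      mul_le_mul (by linarith) d1 (by linarith) (by linarith)
    have m2 : (-Λ) * dc s t (u, w, 1) ≤ (2 * W + 10) * (2 * W + 13) :=
      mul_le_mul (by linarith) d2 (by linarith) (by linarith)
    have g1 : W ^ 2 ≤ -(Λ * dc s t (u, w, 1) + (cc s + cc t) * de s t (u, w, 1) - 1) := by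
      linarith [hCe.2]
    have g2 : -(Λ * dc s t (u, w, 1) + (cc s + cc t) * de s t (u, w, 1) - 1) ≤ 10 * W ^ 2 := by
      linarith [hCe.1]
    rw [abs_of_nonpos (a := Λ * dc s t (u, w, 1) + (cc s + cc t) * de s t (u, w, 1) - 1)
      (by linarith)]
    exact ⟨g1, g2, by linarith, by linarith⟩
  · have s1' := s1 hs'
    have t1' := t1 ht'
    simp only [FF, Rg] at hs' ht'
    have m1 : 9 / 10 * (2 * W - 3) ≤ (s.2.2 + t.2.2) * dc s t (u, w, 1) :=
      mul_le_mul (by linarith) d1 (by linarith) (by linarith)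
    have m2 : (s.2.2 + t.2.2) * dc s t (u, w, 1) ≤ 2 * (2 * W + 13) :=
      mul_le_mul (by linarith) d2 (by linarith) (by linarith)
    have g1 : 2 * W + 13 ≤ de s t (u, w, 1) := by
      simp only [de]; linarith [hs'.2.2.1, ht'.2.2.1]
    have g2 : de s t (u, w, 1) ≤ 10 * W ^ 2 := by
      simp only [de]; linarith [hs'.2.2.2, ht'.2.2.2]
    simp only [AA, gW]
    rw [abs_of_nonneg (a := de s t (u, w, 1)) (by linarith), abs_one]
    exact ⟨by linarith, g2, by linarith, by linarith⟩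
  · have s1' := s2 hs'
    have t1' := t2 ht'
    simp only [FF, Rg] at hs' ht'
    have m1 : 9 / 10 * (2 * W - 3) ≤ (-(s.2.2 + t.2.2)) * dc s t (u, w, 1) :=
      mul_le_mul (by linarith) d1 (by linarith) (by linarith)
    have m2 : (-(s.2.2 + t.2.2)) * dc s t (u, w, 1) ≤ 2 * (2 * W + 13) :=
      mul_le_mul (by linarith) d2 (by linarith) (by linarith)
    have g1 : 2 * W + 13 ≤ -de s t (u, w, 1) := by
      simp only [de]; linarith [hs'.2.2.1, ht'.2.2.1]
    have g2 : -de s t (u, w, 1) ≤ 10 * W ^ 2 := by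
      simp only [de]; linarith [hs'.2.2.2, ht'.2.2.2]
    simp only [AA, gW, abs_neg]
    rw [abs_of_nonpos (a := de s t (u, w, 1)) (by linarith), abs_one]
    exact ⟨by linarith, g2, by linarith, by linarith⟩

/-- weak dependence on the direction -/
lemma contr_step {W : ℝ} (hW : 100 ≤ W) {s t : St} (hs : Rg W s) (ht : Rg W t) {i : Fin 3}
    (hs' : Rg W (FF i s)) (ht' : Rg W (FF i t)) {u w ζ : ℝ} (hu : |u| ≤ ζ) (hw : |w| ≤ ζ) :
    ‖AA i s t (u, w, 0)‖ ≤ gW W i / 10 * ζ := by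
  obtain ⟨-, sb, sL, sL'⟩ := hs
  obtain ⟨-, tb, tL, tL'⟩ := ht
  have hζ : 0 ≤ ζ := (abs_nonneg _).trans hu
  have hB : |s.2.2 + t.2.2| ≤ 2 := (abs_add_le _ _).trans (by linarith)
  have hBw := abs_le.1 (abs_mul_le hB hw)
  have hu' := abs_le.1 hu
  have hw' := abs_le.1 hw
  have dabs : |dc s t (u, w, 0)| ≤ 3 * ζ := by
    simp only [dc, abs_le]; constructor <;> linarith [hBw.1, hBw.2]
  have hBd := abs_le.1 (abs_mul_le hB dabs)
  have eabs : |de s t (u, w, 0)| ≤ 7 * ζ := by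
    simp only [de, abs_le]; constructor <;> linarith [hBd.1, hBd.2]
  have hWζ : 100 * ζ ≤ W * ζ := mul_le_mul_of_nonneg_right hW hζ
  simp only [Prod.norm_def, Real.norm_eq_abs, max_le_iff]
  rcases fin3 i with rfl | rfl | rfl
  · simp only [FF, Rg, abs_neg] at hs' ht'
    have hC : |cc s + cc t| ≤ 2 := (abs_add_le _ _).trans (by linarith [hs'.1, ht'.1])
    have hΛ : |(2 * cc s * s.2.2 - s.2.1) + (2 * cc t * t.2.2 - t.2.1)| ≤ 2 * W + 10 := by
      rw [abs_le]; constructor <;> linarith [hs'.2.2.1, ht'.2.2.1, hs'.2.2.2, ht'.2.2.2]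
    have h1 := abs_le.1 (abs_mul_le hΛ dabs)
    have h2 := abs_le.1 (abs_mul_le hC eabs)
    have hW2 : 100 * (W * ζ) ≤ W * (W * ζ) := mul_le_mul_of_nonneg_right hW (by linarith)
    simp only [AA, gW, abs_neg]
    refine ⟨by linarith, by linarith, ?_⟩
    rw [abs_le]; constructor <;> linarith [h1.1, h1.2, h2.1, h2.2]
  · simp only [AA, gW, abs_zero]
    exact ⟨by linarith, by linarith, by linarith⟩
  · simp only [AA, gW, abs_neg, abs_zero]
    exact ⟨by linarith, by linarith, by linarith⟩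

lemma norm_le_of_Rg {W : ℝ} (hW : 100 ≤ W) {s : St} (hs : Rg W s) : ‖s‖ ≤ W + 5 := by
  obtain ⟨h1, h2, h3, h4⟩ := hs
  simp only [Prod.norm_def, Real.norm_eq_abs, max_le_iff]
  exact ⟨by linarith, abs_le.2 ⟨by linarith, h4⟩, by linarith⟩

/-- Lipschitz dependence on the base points -/
lemma lip_step {W : ℝ} (hW : 100 ≤ W) : ∃ K : ℝ, 0 ≤ K ∧ ∀ (i : Fin 3) (s t s' t' v : St) (η : ℝ),
    Rg W s → Rg W t → Rg W s' → Rg W t' → ‖v‖ ≤ 1 → ‖s - s'‖ ≤ η → ‖t - t'‖ ≤ η →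
      ‖AA i s t v - AA i s' t' v‖ ≤ K * η := by
  have key : ∀ i : Fin 3, ∃ K : NNReal, LipschitzOnWith K (fun x : St × St × St => AA i x.1 x.2.1 x.2.2)
      (Metric.closedBall 0 (W + 5)) := by
    intro i
    have hc : ContDiff ℝ 1 (fun x : St × St × St => AA i x.1 x.2.1 x.2.2) := by
      rcases fin3 i with rfl | rfl | rfl <;> simp only [AA, de, dc, cc] <;> fun_prop
    exact (hc.locallyLipschitz.locallyLipschitzOn).exists_lipschitzOnWith_of_compact
      (isCompact_closedBall _ _)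
  choose K hK using key
  refine ⟨K 0 + K 1 + K 2, by positivity, ?_⟩
  intro i s t s' t' v η hs ht hs' ht' hv h1 h2
  have hη : 0 ≤ η := (norm_nonneg _).trans h1
  have m1 : ((s, t, v) : St × St × St) ∈ Metric.closedBall 0 (W + 5) := by
    rw [mem_closedBall_zero_iff, Prod.norm_def, Prod.norm_def]
    exact max_le (norm_le_of_Rg hW hs) (max_le (norm_le_of_Rg hW ht) (by linarith))
  have m2 : ((s', t', v) : St × St × St) ∈ Metric.closedBall 0 (W + 5) := by
    rw [mem_closedBall_zero_iff, Prod.norm_def, Prod.norm_def]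
    exact max_le (norm_le_of_Rg hW hs') (max_le (norm_le_of_Rg hW ht') (by linarith))
  have h3 := (hK i).norm_sub_le m1 m2
  have h4 : ‖((s, t, v) : St × St × St) - (s', t', v)‖ ≤ η := by
    rw [Prod.mk_sub_mk, Prod.mk_sub_mk, Prod.norm_def, Prod.norm_def]
    exact max_le h1 (max_le h2 (by simpa using hη))
  have h5 : (K i : ℝ) ≤ K 0 + K 1 + K 2 := by
    have := (K 0).2
    have := (K 1).2
    have := (K 2).2
    rcases fin3 i with rfl | rfl | rfl <;> simp only [NNReal.val_eq_coe] at * <;> linarith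
  calc _ ≤ _ := h3
    _ ≤ K i * η := mul_le_mul_of_nonneg_left h4 (K i).2
    _ ≤ _ := mul_le_mul_of_nonneg_right h5 hη

/-- the growth factor -/
def GF (i : Fin 3) (s t : St) (z : ℝ × ℝ) : ℝ := (AA i s t (z.1, z.2, 1)).2.2

/-- the projective action -/
noncomputable def NX (i : Fin 3) (s t : St) (z : ℝ × ℝ) : ℝ × ℝ :=
  ((AA i s t (z.1, z.2, 1)).1 / GF i s t z, (AA i s t (z.1, z.2, 1)).2.1 / GF i s t z)

lemma GF_NX {W : ℝ} (hW : 100 ≤ W) {s t : St} (hs : Rg W s) (ht : Rg W t) {i : Fin 3}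
    (hs' : Rg W (FF i s)) (ht' : Rg W (FF i t)) {z : ℝ × ℝ} (hz : ‖z‖ ≤ 1) :
    W ≤ |GF i s t z| ∧ |GF i s t z| ≤ 10 * W ^ 2 ∧ ‖NX i s t z‖ ≤ 1 ∧
      AA i s t (z.1, z.2, 1) = GF i s t z • ((NX i s t z).1, (NX i s t z).2, 1) := by
  rw [Prod.norm_def, max_le_iff, Real.norm_eq_abs, Real.norm_eq_abs] at hz
  obtain ⟨h1, h2, h3, h4⟩ := cone_step hW hs ht hs' ht' hz.1 hz.2
  have h5 : W ≤ |GF i s t z| := (le_gW hW i).trans h1
  have h6 : 0 < |GF i s t z| := by linarith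
  have h7 : GF i s t z ≠ 0 := abs_pos.1 h6
  refine ⟨h5, h2, ?_, ?_⟩
  · simp only [NX, Prod.norm_def, max_le_iff, Real.norm_eq_abs, abs_div]
    exact ⟨(div_le_one h6).2 h3, (div_le_one h6).2 h4⟩
  · simp only [NX, Prod.smul_mk, smul_eq_mul, mul_div_cancel₀ _ h7, mul_one]
    rfl

lemma ratio_close {x x' G G' g e : ℝ} (hg : 0 < g) (hG : g ≤ |G|) (hG' : 0 < |G'|)
    (hx' : |x'| ≤ |G'|) (h1 : |x - x'| ≤ g * e) (h2 : |G - G'| ≤ g * e) :
    |x / G - x' / G'| ≤ 2 * e := by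
  have hG0 : 0 < |G| := by linarith
  have n1 : G ≠ 0 := abs_pos.1 hG0
  have n2 : G' ≠ 0 := abs_pos.1 hG'
  have he : 0 ≤ e := by
    by_contra hc
    push Not at hc
    nlinarith [abs_nonneg (x - x')]
  have e1 : x / G - x' / G' = ((x - x') - (x' / G') * (G - G')) / G := by field_simp; ring
  have h3 : |x' / G'| ≤ 1 := by rw [abs_div]; exact (div_le_one hG').2 hx'
  have h4 := abs_mul_le h3 h2
  rw [e1, abs_div, div_le_iff₀ hG0]
  have h5 := abs_sub (x - x') ((x' / G') * (G - G'))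
  have h6 : g * e ≤ |G| * e := mul_le_mul_of_nonneg_right hG he
  linarith

/-- one step of the comparison of two cocycles -/
lemma compare_step {W K : ℝ} (hW : 100 ≤ W)
    (hK : ∀ (i : Fin 3) (s t s' t' v : St) (η : ℝ),
      Rg W s → Rg W t → Rg W s' → Rg W t' → ‖v‖ ≤ 1 → ‖s - s'‖ ≤ η → ‖t - t'‖ ≤ η →
      ‖AA i s t v - AA i s' t' v‖ ≤ K * η) (hK0 : 0 ≤ K)
    {s t s' t' : St} (hs : Rg W s) (ht : Rg W t) (hs' : Rg W s') (ht' : Rg W t') {i : Fin 3}
    (gs : Rg W (FF i s)) (gt : Rg W (FF i t)) (gs' : Rg W (FF i s')) (gt' : Rg W (FF i t'))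
    {z z' : ℝ × ℝ} (hz : ‖z‖ ≤ 1) (hz' : ‖z'‖ ≤ 1) {ζ η : ℝ} (hζ : ‖z - z'‖ ≤ ζ)
    (h1 : ‖s - s'‖ ≤ η) (h2 : ‖t - t'‖ ≤ η) :
    |GF i s t z| ≤ (1 + (ζ / 10 + K * η)) * |GF i s' t' z'| ∧
      ‖NX i s t z - NX i s' t' z'‖ ≤ 2 * (ζ / 10 + K * η) := by
  have hη : 0 ≤ η := (norm_nonneg _).trans h1
  have hζ0 : 0 ≤ ζ := (norm_nonneg _).trans hζ
  have hz0 := hz
  have hz0' := hz'
  rw [Prod.norm_def, max_le_iff, Real.norm_eq_abs, Real.norm_eq_abs] at hz hz' hζ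
  obtain ⟨a1, -, -, -⟩ := cone_step hW hs ht gs gt hz.1 hz.2
  obtain ⟨b1, -, b3, b4⟩ := cone_step hW hs' ht' gs' gt' hz'.1 hz'.2
  have c1 := contr_step hW hs' ht' gs' gt' hζ.1 hζ.2
  have c2 := hK i s t s' t' (z.1, z.2, 1) η hs ht hs' ht'
    (by simp only [Prod.norm_def, Real.norm_eq_abs, max_le_iff, abs_one]; exact ⟨hz.1, hz.2, le_rfl⟩)
    h1 h2
  have hg := le_gW hW i
  have c3 : ‖AA i s t (z.1, z.2, 1) - AA i s' t' (z'.1, z'.2, 1)‖ ≤ gW W i * (ζ / 10 + K * η) := by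
    have e : AA i s t (z.1, z.2, 1) - AA i s' t' (z'.1, z'.2, 1)
        = (AA i s t (z.1, z.2, 1) - AA i s' t' (z.1, z.2, 1))
          + AA i s' t' ((z - z').1, (z - z').2, 0) := by
      have : ((z - z').1, (z - z').2, (0 : ℝ)) = ((z.1, z.2, 1) : St) - (z'.1, z'.2, 1) := by simp
      rw [this, ← AA_sub]; abel
    rw [e]
    have := norm_add_le (AA i s t (z.1, z.2, 1) - AA i s' t' (z.1, z.2, 1))
      (AA i s' t' ((z - z').1, (z - z').2, 0))
    have : 1 * (K * η) ≤ gW W i * (K * η) :=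
      mul_le_mul_of_nonneg_right (by linarith) (mul_nonneg hK0 hη)
    linarith
  simp only [Prod.norm_def, Real.norm_eq_abs, max_le_iff, Prod.fst_sub, Prod.snd_sub] at c3
  obtain ⟨d1, d2, d3⟩ := c3
  have p : 0 ≤ ζ / 10 + K * η := by positivity
  constructor
  · have := abs_sub_abs_le_abs_sub (GF i s t z) (GF i s' t' z')
    have e : gW W i * (ζ / 10 + K * η) ≤ |GF i s' t' z'| * (ζ / 10 + K * η) :=
      mul_le_mul_of_nonneg_right b1 p
    unfold GF at *
    linarith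
  · simp only [NX, Prod.norm_def, Real.norm_eq_abs, max_le_iff, Prod.mk_sub_mk]
    exact ⟨ratio_close (by linarith) a1 (by unfold GF; linarith) b3 d1 d3,
      ratio_close (by linarith) a1 (by unfold GF; linarith) b4 d2 d3⟩

end Pool.Agent.MP_47b204_mp.H45
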