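import Pool.Agent.MP_47b204_mp.H45.Cocycle

set_option autoImplicit false

namespace Pool.Agent.MP_47b204_mp.H45

open Filter Topology Set

lemma L_close {W ε M : ℝ} (hW : 100 ≤ W) {x y : St} (hx : Rg W x) (hy : Rg W y)
    (hv : |fv x - fv y| ≤ ε) (ha : |x.1 - y.1| ≤ M) (hb : |x.2.2 - y.2.2| ≤ M) :
    |x.2.1 - y.2.1| ≤ 4 * M + ε := by
  obtain ⟨a, L, b⟩ := x
  obtain ⟨a', L', b'⟩ := y
  simp only [Rg, fv] at *
  obtain ⟨a1, b1, L1, -⟩ := hx
  obtain ⟨a1', b1', L1', -⟩ := hy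
  have hM : 0 ≤ M := (abs_nonneg _).trans ha
  have hε : 0 ≤ ε := (abs_nonneg _).trans hv
  have hab := abs_le.1 (abs_mul_le a1 b1)
  have hab' := abs_le.1 (abs_mul_le a1' b1')
  have q1 : |1 - b ^ 2| ≤ 1 := by
    have := abs_le.1 (abs_mul_le b1 b1)
    rw [abs_le]; constructor <;> nlinarith [sq_nonneg b]
  have q2 : |1 - a' ^ 2| ≤ 1 := by
    have := abs_le.1 (abs_mul_le a1' a1')
    rw [abs_le]; constructor <;> nlinarith [sq_nonneg a']
  have sa : |a + a'| ≤ 2 := (abs_add_le _ _).trans (by linarith)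
  have sb : |b + b'| ≤ 2 := (abs_add_le _ _).trans (by linarith)
  have t1 := abs_le.1 (abs_mul_le (abs_mul_le ha sa) q1)
  have t2 := abs_le.1 (abs_mul_le (abs_mul_le hb sb) q2)
  have t3 := abs_le.1 (abs_mul_le ha b1)
  have t4 := abs_le.1 (abs_mul_le a1' hb)
  have hv' := abs_le.1 hv
  have e : ((L - a * b) - (L' - a' * b')) * ((L - a * b) + (L' - a' * b'))
      = ((a ^ 2 + L ^ 2 + b ^ 2 - 2 * a * L * b - 1) - (a' ^ 2 + L' ^ 2 + b' ^ 2 - 2 * a' * L' * b' - 1))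
        - (a - a') * (a + a') * (1 - b ^ 2) - (b - b') * (b + b') * (1 - a' ^ 2) := by ring
  have h1 : |((L - a * b) - (L' - a' * b')) * ((L - a * b) + (L' - a' * b'))| ≤ ε + 4 * M := by
    rw [e, abs_le]; constructor <;> linarith [t1.1, t1.2, t2.1, t2.2, hv'.1, hv'.2]
  rw [abs_mul, abs_of_nonneg (a := (L - a * b) + (L' - a' * b')) (by linarith [hab.2, hab'.2])] at h1
  have h2 : |(L - a * b) - (L' - a' * b')| * 2 ≤
      |(L - a * b) - (L' - a' * b')| * ((L - a * b) + (L' - a' * b')) :=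
    mul_le_mul_of_nonneg_left (by linarith [hab.2, hab'.2]) (abs_nonneg _)
  have h3 := abs_le.1 (show |(L - a * b) - (L' - a' * b')| ≤ ε / 2 + 2 * M by linarith)
  rw [abs_le]; constructor <;> linarith [t3.1, t3.2, t4.1, t4.2, h3.1, h3.2]

lemma small_of_mul {W L x B : ℝ} (hW : 100 ≤ W) (hL : W ≤ L) (h : |2 * L * x| ≤ B) :
    |x| ≤ B / 200 := by
  rw [abs_mul, abs_of_nonneg (a := 2 * L) (by linarith)] at h
  have : 200 * |x| ≤ 2 * L * |x| := mul_le_mul_of_nonneg_right (by linarith) (abs_nonneg _)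
  linarith

lemma ab_close {W ε M : ℝ} (hW : 100 ≤ W) {x y : St} (hx : Rg W x) (hy : Rg W y) {i : Fin 3}
    (hx' : Rg W (FF i x)) (hy' : Rg W (FF i y)) (hv : |fv x - fv y| ≤ ε)
    (ha : |x.1 - y.1| ≤ M) (hb : |x.2.2 - y.2.2| ≤ M)
    (ha' : |(FF i x).1 - (FF i y).1| ≤ M) (hb' : |(FF i x).2.2 - (FF i y).2.2| ≤ M) :
    |x.2.2 - y.2.2| ≤ M / 10 + ε / 10 ∧ |(FF i x).1 - (FF i y).1| ≤ M / 10 + ε / 10 := by
  have l1 := L_close hW hx hy hv ha hb
  have l2 := L_close (ε := ε) hW hx' hy' (by rwa [fv_FF, fv_FF]) ha' hb'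
  have hM : 0 ≤ M := (abs_nonneg _).trans ha
  have hε : 0 ≤ ε := (abs_nonneg _).trans hv
  have t1 := abs_le.1 (abs_mul_le hy.2.1 l1)
  have t2 := abs_le.1 (abs_mul_le hy'.1 l2)
  have e1 : 2 * x.2.1 * (x.2.2 - y.2.2)
      = (cc x - cc y) + (x.1 - y.1) - 2 * (y.2.2 * (x.2.1 - y.2.1)) := by simp only [cc]; ring
  have ha0 := abs_le.1 ha
  have hb0 := abs_le.1 hb
  have ha0' := abs_le.1 ha'
  have hb0' := abs_le.1 hb'
  have l2' := abs_le.1 l2
  have k : |cc x - cc y| ≤ 4 * M + ε → |x.2.2 - y.2.2| ≤ M / 10 + ε / 10 := by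
    intro h
    have h' := abs_le.1 h
    have := small_of_mul (B := 13 * M + 3 * ε) (x := x.2.2 - y.2.2) hW hx.2.2.1 (by
      rw [e1, abs_le]; constructor <;> linarith [t1.1, t1.2, h'.1, h'.2])
    linarith
  rcases fin3 i with rfl | rfl | rfl
  · constructor
    · apply k
      simp only [FF] at ha0'
      rw [abs_le]; constructor <;> linarith [ha0'.1, ha0'.2]
    · have e2 : 2 * (FF 0 x).2.1 * ((FF 0 x).1 - (FF 0 y).1)
          = ((FF 0 x).2.2 - (FF 0 y).2.2) + (x.2.2 - y.2.2)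
            - 2 * ((FF 0 y).1 * ((FF 0 x).2.1 - (FF 0 y).2.1)) := by simp only [FF]; ring
      have := small_of_mul (B := 13 * M + 3 * ε) (x := (FF 0 x).1 - (FF 0 y).1) hW hx'.2.2.1 (by
        rw [e2, abs_le]; constructor <;> linarith [t2.1, t2.2])
      linarith
  · have := k l2
    exact ⟨this, this⟩
  · have h1 : |cc x - cc y| ≤ 4 * M + ε := by
      simp only [FF] at l2'
      rw [abs_le]; constructor <;> linarith [l2'.1, l2'.2]
    have := k h1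
    refine ⟨this, ?_⟩
    simp only [FF]
    rw [← abs_neg]
    convert this using 2
    ring

/-- orbits with the same itinerary approach each other -/
lemma orb_close {W ε : ℝ} (hW : 100 ≤ W) {x y : St} {ι : ℕ → Fin 3} (hx : Cod W x ι)
    (hy : Cod W y ι) (hv : |fv x - fv y| ≤ ε) (j : ℕ) :
    ‖orb x ι j - orb y ι j‖ ≤ 5 * (2 / 2 ^ j + ε) := by
  have hε : 0 ≤ ε := (abs_nonneg _).trans hv
  have hv' : ∀ i, |fv (orb x ι i) - fv (orb y ι i)| ≤ ε := fun i => by rwa [fv_orb, fv_orb]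
  have key : ∀ j, ∀ i ≥ j, |(orb x ι i).1 - (orb y ι i).1| ≤ 2 / 2 ^ j + ε ∧
      |(orb x ι i).2.2 - (orb y ι i).2.2| ≤ 2 / 2 ^ j + ε := by
    intro j
    induction j with
    | zero =>
      intro i _
      have h1 := abs_sub (orb x ι i).1 (orb y ι i).1
      have h2 := abs_sub (orb x ι i).2.2 (orb y ι i).2.2
      have := (hx i).1
      have := (hy i).1
      have := (hx i).2.1
      have := (hy i).2.1
      constructor <;> simp only [pow_zero] <;> linarith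
    | succ j ih =>
      have st : ∀ i ≥ j, |(orb x ι i).2.2 - (orb y ι i).2.2| ≤ 2 / 2 ^ (j + 1) + ε ∧
          |(orb x ι (i + 1)).1 - (orb y ι (i + 1)).1| ≤ 2 / 2 ^ (j + 1) + ε := by
        intro i hi
        have := ab_close hW (hx i) (hy i) (hx (i + 1)) (hy (i + 1)) (hv' i) (ih i hi).1 (ih i hi).2
          (ih (i + 1) (by omega)).1 (ih (i + 1) (by omega)).2
        have e : (2 : ℝ) / 2 ^ (j + 1) = (2 / 2 ^ j) / 2 := by rw [pow_succ]; field_simp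
        have p : (0 : ℝ) ≤ 2 / 2 ^ j := by positivity
        rw [e]
        exact ⟨by linarith [this.1], by simp only [orb]; linarith [this.2]⟩
      intro i hi
      obtain ⟨i, rfl⟩ : ∃ k, i = k + 1 := ⟨i - 1, by omega⟩
      exact ⟨(st i (by omega)).2, (st (i + 1) (by omega)).1⟩
  obtain ⟨h1, h2⟩ := key j j le_rfl
  have h3 := L_close hW (hx j) (hy j) (hv' j) h1 h2
  have p : (0 : ℝ) ≤ 2 / 2 ^ j := by positivity
  simp only [Prod.norm_def, Real.norm_eq_abs, max_le_iff, Prod.fst_sub, Prod.snd_sub]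
  exact ⟨by linarith, by linarith, by linarith⟩

/-- directions along a pair of orbits -/
noncomputable def zz (s t : St) (ι : ℕ → Fin 3) (z0 : ℝ × ℝ) : ℕ → ℝ × ℝ
  | 0 => z0
  | j + 1 => NX (ι j) (orb s ι j) (orb t ι j) (zz s t ι z0 j)

/-- accumulated growth -/
noncomputable def PG (s t : St) (ι : ℕ → Fin 3) (z0 : ℝ × ℝ) : ℕ → ℝ
  | 0 => 1
  | j + 1 => PG s t ι z0 j * GF (ι j) (orb s ι j) (orb t ι j) (zz s t ι z0 j)

lemma pair_props {W : ℝ} (hW : 100 ≤ W) {s t : St} {ι : ℕ → Fin 3} {z0 : ℝ × ℝ} {n : ℕ}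
    (hs : ∀ j ≤ n, Rg W (orb s ι j)) (ht : ∀ j ≤ n, Rg W (orb t ι j)) (hz : ‖z0‖ ≤ 1) {δ : ℝ}
    (hδ : s - t = δ • (z0.1, z0.2, 1)) (j : ℕ) (hj : j ≤ n) :
    ‖zz s t ι z0 j‖ ≤ 1 ∧ W ^ j ≤ |PG s t ι z0 j| ∧ |PG s t ι z0 j| ≤ (10 * W ^ 2) ^ j ∧
      orb s ι j - orb t ι j
        = (δ * PG s t ι z0 j) • ((zz s t ι z0 j).1, (zz s t ι z0 j).2, 1) := by
  induction j with
  | zero => exact ⟨hz, by simp [PG], by simp [PG], by simpa [PG, orb, zz] using hδ⟩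
  | succ j ih =>
    obtain ⟨h1, h2, h3, h4⟩ := ih (by omega)
    obtain ⟨g1, g2, g3, g4⟩ := GF_NX hW (hs j (by omega)) (ht j (by omega)) (hs (j + 1) hj)
      (ht (j + 1) hj) h1
    refine ⟨g3, ?_, ?_, ?_⟩
    · rw [PG, abs_mul, pow_succ]
      exact mul_le_mul h2 g1 (by linarith) (abs_nonneg _)
    · rw [PG, abs_mul, pow_succ]
      exact mul_le_mul h3 g2 (abs_nonneg _) (by positivity)
    · rw [orb, orb, FF_sub, h4, AA_smul, g4, smul_smul, PG, mul_assoc]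
      rfl

/-- comparison of the growth along two pairs of orbits -/
lemma compare_PG {W : ℝ} (hW : 100 ≤ W) : ∃ K : ℝ, 0 ≤ K ∧
    ∀ (s t s' t' : St) (ι : ℕ → Fin 3) (z0 z0' : ℝ × ℝ) (n : ℕ) (ε : ℝ), 0 ≤ ε →
      (∀ j ≤ n, Rg W (orb s ι j)) → (∀ j ≤ n, Rg W (orb t ι j)) →
      (∀ j ≤ n, Rg W (orb s' ι j)) → (∀ j ≤ n, Rg W (orb t' ι j)) → ‖z0‖ ≤ 1 → ‖z0'‖ ≤ 1 →
      (∀ j ≤ n, ‖orb s ι j - orb s' ι j‖ ≤ 5 * (2 / 2 ^ j + ε)) →
      (∀ j ≤ n, ‖orb t ι j - orb t' ι j‖ ≤ 5 * (2 / 2 ^ j + ε)) →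
      |PG s t ι z0 n| ≤ Real.exp (K * (4 + ε * n)) * |PG s' t' ι z0' n| := by
  obtain ⟨K, hK0, hK⟩ := lip_step hW
  refine ⟨(1 + 40 * K) / 10 + 5 * K, by positivity, ?_⟩
  intro s t s' t' ι z0 z0' n ε hε hs ht hs' ht' hz hz' h1 h2
  set c := (1 + 40 * K) / 10 + 5 * K with hc
  have hc0 : 0 ≤ c := by positivity
  have key : ∀ j ≤ n, ‖zz s t ι z0 j‖ ≤ 1 ∧ ‖zz s' t' ι z0' j‖ ≤ 1 ∧
      ‖zz s t ι z0 j - zz s' t' ι z0' j‖ ≤ (1 + 40 * K) * (2 / 2 ^ j + ε) ∧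
      |PG s t ι z0 j| ≤ Real.exp (c * (4 - 4 / 2 ^ j + ε * j)) * |PG s' t' ι z0' j| := by
    intro j hj
    induction j with
    | zero =>
      refine ⟨hz, hz', ?_, by simp [PG]⟩
      have := norm_sub_le z0 z0'
      simp only [zz, pow_zero]
      nlinarith
    | succ j ih =>
      obtain ⟨a1, a2, a3, a4⟩ := ih (by omega)
      have hj' : j ≤ n := by omega
      obtain ⟨-, -, g3, -⟩ := GF_NX hW (hs j hj') (ht j hj') (hs (j + 1) hj) (ht (j + 1) hj) a1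
      obtain ⟨-, -, g3', -⟩ := GF_NX hW (hs' j hj') (ht' j hj') (hs' (j + 1) hj) (ht' (j + 1) hj) a2
      obtain ⟨b1, b2⟩ := compare_step hW hK hK0 (hs j hj') (ht j hj') (hs' j hj') (ht' j hj')
        (hs (j + 1) hj) (ht (j + 1) hj) (hs' (j + 1) hj) (ht' (j + 1) hj) a1 a2 a3 (h1 j hj') (h2 j hj')
      have e : (2 : ℝ) / 2 ^ (j + 1) = (2 / 2 ^ j) / 2 := by rw [pow_succ]; field_simp
      have e' : (4 : ℝ) / 2 ^ (j + 1) = 2 / 2 ^ j := by rw [pow_succ]; field_simp; ring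
      have e'' : (4 : ℝ) / 2 ^ j = 2 * (2 / 2 ^ j) := by ring
      have p : (0 : ℝ) ≤ 2 / 2 ^ j := by positivity
      set r : ℝ := 2 / 2 ^ j
      refine ⟨g3, g3', ?_, ?_⟩
      · rw [e]
        have := mul_nonneg hK0 p
        have := mul_nonneg hK0 hε
        refine b2.trans ?_
        nlinarith
      · rw [PG, PG, abs_mul, abs_mul, e']
        have e3 : (1 + 40 * K) * (r + ε) / 10 + K * (5 * (r + ε)) = c * (r + ε) := by rw [hc]; ring
        rw [e3] at b1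
        have b3 : 1 + c * (r + ε) ≤ Real.exp (c * (r + ε)) := by
          linarith [Real.add_one_le_exp (c * (r + ε))]
        have e4 : Real.exp (c * (4 - r + ε * ((j + 1 : ℕ) : ℝ)))
            = Real.exp (c * (4 - 4 / 2 ^ j + ε * j)) * Real.exp (c * (r + ε)) := by
          rw [← Real.exp_add, e'']; congr 1; push_cast; ring
        rw [e4]
        calc _ ≤ (Real.exp (c * (4 - 4 / 2 ^ j + ε * j)) * |PG s' t' ι z0' j|) *
              (Real.exp (c * (r + ε)) * |GF (ι j) (orb s' ι j) (orb t' ι j) (zz s' t' ι z0' j)|) :=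
              mul_le_mul a4 (b1.trans (mul_le_mul_of_nonneg_right b3 (abs_nonneg _)))
                (abs_nonneg _) (by positivity)
          _ = _ := by ring
  refine (key n le_rfl).2.2.2.trans (mul_le_mul_of_nonneg_right ?_ (abs_nonneg _))
  apply Real.exp_le_exp.2
  apply mul_le_mul_of_nonneg_left _ hc0
  have : (0 : ℝ) ≤ 4 / 2 ^ n := by positivity
  linarith

end Pool.Agent.MP_47b204_mp.H45
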