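import Mathlib

set_option autoImplicit false

namespace Pool.Agent.MP_47b204_mp.H45

open Filter Topology

/-- The Fibonacci substitution on letters; `true` is the letter `a`, `false` is the letter `b`. -/
def fibSub : Bool → List Bool
  | true => [true, false]
  | false => [true]

/-- The word `S^n(a)`. -/
def fibWord (n : ℕ) : List Bool := (fun w : List Bool => w.flatMap fibSub)^[n] [true]

/-- The one-sided fixed point `u` of the substitution: letter number `k` of `S^(k+1)(a)`. -/
def fibSeq (k : ℕ) : Bool := (fibWord (k + 1)).getD k true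

/-- The hull: limits of shifts of a two-sided sequence along strictly increasing times. -/
def hull (v : ℤ → Bool) : Set (ℤ → Bool) :=
  {ω | ∃ n : ℕ → ℕ, StrictMono n ∧ Tendsto (fun i => fun k : ℤ => v (k + n i)) atTop (𝓝 ω)}

/-- Off-diagonal values `p(a) = 1`, `p(b) = p`. -/
def offDiag (p : ℝ) : Bool → ℝ
  | true => 1
  | false => p

/-- Diagonal values `q(a) = 0`, `q(b) = q`. -/
def diag (q : ℝ) : Bool → ℝ
  | true => 0
  | false => q

/-- The action of the tridiagonal Fibonacci Hamiltonian on a two-sided complex sequence. -/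
noncomputable def ham (p q : ℝ) (ω : ℤ → Bool) (φ : ℤ → ℂ) (n : ℤ) : ℂ :=
  (offDiag p (ω n) : ℂ) * φ (n - 1) + (offDiag p (ω (n + 1)) : ℂ) * φ (n + 1)
    + (diag q (ω n) : ℂ) * φ n

/-- The spectrum of the Hamiltonian on `ℓ²(ℤ)`: the real `E` such that `H - E` is not a bijection
of the space of square-summable sequences onto itself. -/
def spec (p q : ℝ) (ω : ℤ → Bool) : Set ℝ :=
  {E | ¬ Set.BijOn (fun (φ : ℤ → ℂ) (n : ℤ) => ham p q ω φ n - E * φ n)
    {φ | Memℓp φ 2} {φ | Memℓp φ 2}}

end Pool.Agent.MP_47b204_mp.H45
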