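import Pool.Agent.MP_47b204_mp.H45.Compare

set_option autoImplicit false

namespace Pool.Agent.MP_47b204_mp.H45

open Filter Topology Set

/-- real valued Hausdorff dimension -/
noncomputable def dm (s : Set ℝ) : ℝ := (dimH s).toReal

lemma dm_nonneg (s : Set ℝ) : 0 ≤ dm s := ENNReal.toReal_nonneg

lemma dm_mono {s t : Set ℝ} (h : s ⊆ t) : dm s ≤ dm t :=
  ENNReal.toReal_mono (Real.dimH_ne_top t) (dimH_mono h)

lemma dm_range_le {S : Type} (e1 e2 : S → ℝ) (C r : ℝ) (hr : 0 < r)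
    (h : ∀ i j, |e2 i - e2 j| ≤ C * |e1 i - e1 j| ^ r) : r * dm (range e2) ≤ dm (range e1) := by
  classical
  let f : ℝ → ℝ := fun x => if hx : x ∈ range e1 then e2 hx.choose else 0
  have hf : ∀ i, f (e1 i) = e2 i := by
    intro i
    have hx : e1 i ∈ range e1 := mem_range_self i
    have := h hx.choose i
    rw [hx.choose_spec, sub_self, abs_zero, Real.zero_rpow hr.ne', mul_zero] at this
    simp only [f, dif_pos hx]
    exact sub_eq_zero.1 (abs_nonpos_iff.1 this)
  have him : f '' range e1 = range e2 := by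
    rw [← range_comp]
    congr 1
    funext i
    exact hf i
  lift r to NNReal using hr.le
  have hH : HolderOnWith (Real.toNNReal C) r f (range e1) := by
    rintro _ ⟨i, rfl⟩ _ ⟨j, rfl⟩
    rw [hf, hf, edist_dist, edist_dist, Real.dist_eq, Real.dist_eq,
      ENNReal.ofReal_rpow_of_nonneg (abs_nonneg _) hr.le]
    change _ ≤ ENNReal.ofReal C * _
    rcases le_total 0 C with hC | hC
    · rw [← ENNReal.ofReal_mul hC]
      exact ENNReal.ofReal_le_ofReal (h i j)
    · have : |e2 i - e2 j| ≤ 0 :=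
        (h i j).trans (mul_nonpos_of_nonpos_of_nonneg hC (by positivity))
      rw [ENNReal.ofReal_of_nonpos this]
      exact zero_le
  have h1 := hH.dimH_image_le (by exact_mod_cast hr)
  rw [him] at h1
  have hr0 : (r : ENNReal) ≠ 0 := by exact_mod_cast (by exact_mod_cast hr.ne' : r ≠ 0)
  have h2 := ENNReal.toReal_mono (ENNReal.div_ne_top (Real.dimH_ne_top _) hr0) h1
  rw [ENNReal.toReal_div, ENNReal.coe_toReal, le_div_iff₀ hr] at h2
  unfold dm
  linarith

/-- the line of initial conditions -/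
noncomputable def init (p q b : ℝ) : St := (b / p - q / 2, (p + 1 / p) / 2, b)

/-- half of `p - 1/p` -/
noncomputable def DD (p : ℝ) : ℝ := (p - 1 / p) / 2

lemma fv_init {p : ℝ} (hp : p ≠ 0) (q b : ℝ) :
    fv (init p q b) = DD p ^ 2 + b * q * DD p + q ^ 2 / 4 := by
  simp only [fv, init, DD]
  field_simp
  ring

/-- admissible parameters -/
def Adm (W p q : ℝ) : Prop :=
  100 ≤ W ∧ 2 ≤ p ∧ |q| ≤ 1 ∧ ∀ b, |b| ≤ 1 → VOk W (fv (init p q b))

lemma abs_init_fst {p q : ℝ} (hp : 2 ≤ p) (hq : |q| ≤ 1) (b : ℝ) :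
    |(init p q b).1| ≤ |b| / 2 + 1 / 2 := by
  simp only [init]
  have h1 := abs_sub (b / p) (q / 2)
  rw [abs_div, abs_div, abs_of_nonneg (a := p) (by linarith), abs_two] at h1
  have h2 : |b| / p ≤ |b| / 2 := div_le_div_of_nonneg_left (abs_nonneg _) (by norm_num) hp
  linarith

lemma one_lt_init {p : ℝ} (hp : 2 ≤ p) (q b : ℝ) : 1 < (init p q b).2.1 := by
  simp only [init]
  have : 0 < 1 / p := by positivity
  linarith

lemma Adm.rg {W p q : ℝ} (h : Adm W p q) {b : ℝ} (hb : |b| ≤ 1) : Rg W (init p q b) :=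
  Rg_of h.1 (h.2.2.2 b hb) (by linarith [abs_init_fst h.2.1 h.2.2.1 b]) hb
    (one_lt_init h.2.1 q b).le

/-- the set of bounded orbits on the line of initial conditions -/
def KK (p q : ℝ) : Set ℝ := {b | Bd (init p q b)}

lemma Adm.esc_or_cod {W p q : ℝ} (h : Adm W p q) (b : ℝ) :
    Esc (init p q b) ∨ ∃ ι, Cod W (init p q b) ι := by
  by_cases hb : |b| ≤ 1
  · exact H45.esc_or_cod h.1 (h.2.2.2 b hb) (h.rg hb)
  · left
    push Not at hb
    have h1 := one_lt_init h.2.1 q b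
    have h2 : 1 < |(init p q b).2.1| := lt_of_lt_of_le h1 (le_abs_self _)
    apply esc_of_large h2 hb
    have h3 := abs_init_fst h.2.1 h.2.2.1 b
    change _ ≤ _ * |b|
    nlinarith

lemma Esc.not_bd {s : St} (h : Esc s) : ¬ Bd s := by
  rintro ⟨C, hC⟩
  obtain ⟨n, hn⟩ := (h.eventually_gt_atTop C).exists
  linarith [hC n]

lemma Adm.exists_cod {W p q : ℝ} (h : Adm W p q) (ι : ℕ → Fin 3) :
    ∃ b, Cod W (init p q b) ι := by
  obtain ⟨b, -, hb⟩ := H45.exists_cod h.1 (s := init p q) (by unfold init; fun_prop)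
    (fun x hx => ⟨h.rg (abs_le.2 hx), h.2.2.2 x (abs_le.2 hx)⟩) rfl rfl ι
  exact ⟨b, hb⟩

lemma init_sub (p q b b' : ℝ) :
    init p q b - init p q b' = (b - b') • (((1 / p, 0) : ℝ × ℝ).1, ((1 / p, 0) : ℝ × ℝ).2, 1) := by
  simp only [init, Prod.mk_sub_mk, Prod.smul_mk, smul_eq_mul, Prod.mk.injEq]
  refine ⟨by ring, by ring, by ring⟩

lemma norm_z0 {p : ℝ} (hp : 2 ≤ p) : ‖((1 / p, 0) : ℝ × ℝ)‖ ≤ 1 := by
  simp only [Prod.norm_def, Real.norm_eq_abs, abs_zero, max_le_iff, zero_le_one, and_true]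
  rw [abs_of_nonneg (by positivity), div_le_one (by linarith)]
  linarith

/-- estimates for a pair of states whose itineraries agree up to time `n` -/
lemma pair_est {W : ℝ} (hW : 100 ≤ W) {s t : St} {ι ι' : ℕ → Fin 3} (hs : Cod W s ι)
    (ht : Cod W t ι') {n : ℕ} (hn : ∀ j < n, ι j = ι' j) {z0 : ℝ × ℝ} (hz : ‖z0‖ ≤ 1) {δ : ℝ}
    (hδ : s - t = δ • (z0.1, z0.2, 1)) :
    |δ| * |PG s t ι z0 n| ≤ 2 ∧ (ι n ≠ ι' n → 2 / 5 ≤ |δ| * |PG s t ι z0 n|) := by
  have e : ∀ j ≤ n, orb t ι j = orb t ι' j := fun j hj => orb_congr t fun k hk => hn k (by omega)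
  obtain ⟨-, -, -, h4⟩ := pair_props hW (n := n) (fun j _ => hs j)
    (fun j hj => by rw [e j hj]; exact ht j) hz hδ n le_rfl
  have h5 : (orb s ι n).2.2 - (orb t ι' n).2.2 = δ * PG s t ι z0 n := by
    have := congrArg (fun x : St => x.2.2) h4
    simpa [e n le_rfl] using this
  rw [← abs_mul, ← h5]
  refine ⟨(abs_sub _ _).trans (by linarith [(hs n).2.1, (ht n).2.1]), fun hne => ?_⟩
  exact separation hW (hs n) (ht n) (hs (n + 1)) (ht (n + 1)) hne

lemma Adm.upper {W p q : ℝ} (h : Adm W p q) {b b' : ℝ} {ι ι' : ℕ → Fin 3}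
    (hs : Cod W (init p q b) ι) (ht : Cod W (init p q b') ι') {n : ℕ} (hn : ∀ j < n, ι j = ι' j) :
    W ^ n * |b - b'| ≤ 2 := by
  have h1 := (pair_est h.1 hs ht hn (norm_z0 h.2.1) (init_sub p q b b')).1
  have e : ∀ j ≤ n, orb (init p q b') ι j = orb (init p q b') ι' j :=
    fun j hj => orb_congr _ fun k hk => hn k (by omega)
  obtain ⟨-, h2, -, -⟩ := pair_props h.1 (n := n) (fun j _ => hs j)
    (fun j hj => by rw [e j hj]; exact ht j) (norm_z0 h.2.1) (init_sub p q b b') n le_rfl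
  nlinarith [abs_nonneg (b - b')]

lemma Adm.lower {W p q : ℝ} (h : Adm W p q) {b b' : ℝ} {ι ι' : ℕ → Fin 3}
    (hs : Cod W (init p q b) ι) (ht : Cod W (init p q b') ι') {n : ℕ} (hn : ∀ j < n, ι j = ι' j)
    (hne : ι n ≠ ι' n) : 2 / 5 ≤ (10 * W ^ 2) ^ n * |b - b'| := by
  have h1 := (pair_est h.1 hs ht hn (norm_z0 h.2.1) (init_sub p q b b')).2 hne
  have e : ∀ j ≤ n, orb (init p q b') ι j = orb (init p q b') ι' j :=
    fun j hj => orb_congr _ fun k hk => hn k (by omega)
  obtain ⟨-, -, h2, -⟩ := pair_props h.1 (n := n) (fun j _ => hs j)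
    (fun j hj => by rw [e j hj]; exact ht j) (norm_z0 h.2.1) (init_sub p q b b') n le_rfl
  nlinarith [abs_nonneg (b - b')]

lemma Adm.unique {W p q : ℝ} (h : Adm W p q) {b b' : ℝ} {ι : ℕ → Fin 3}
    (hs : Cod W (init p q b) ι) (ht : Cod W (init p q b') ι) : b = b' := by
  by_contra hne
  have hpos : 0 < |b - b'| := abs_pos.2 (sub_ne_zero.2 hne)
  obtain ⟨n, hn⟩ := pow_unbounded_of_one_lt (2 / |b - b'|) (show (1 : ℝ) < W by linarith [h.1])
  have := h.upper hs ht (n := n) (fun _ _ => rfl)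
  rw [div_lt_iff₀ hpos] at hn
  linarith

/-- the point with a given itinerary -/
noncomputable def Adm.ee {W p q : ℝ} (h : Adm W p q) (ι : ℕ → Fin 3) : ℝ := (h.exists_cod ι).choose

lemma Adm.cod_ee {W p q : ℝ} (h : Adm W p q) (ι : ℕ → Fin 3) : Cod W (init p q (h.ee ι)) ι :=
  (h.exists_cod ι).choose_spec

lemma Adm.range_ee {W p q : ℝ} (h : Adm W p q) : range h.ee = KK p q := by
  ext b
  constructor
  · rintro ⟨ι, rfl⟩
    exact (h.cod_ee ι).bd h.1
  · intro hb
    rcases h.esc_or_cod b with he | ⟨ι, hι⟩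
    · exact absurd hb he.not_bd
    · exact ⟨ι, h.unique (h.cod_ee ι) hι⟩

lemma first_diff {ι ι' : ℕ → Fin 3} (h : ι ≠ ι') : ∃ n, (∀ j < n, ι j = ι' j) ∧ ι n ≠ ι' n := by
  classical
  have : ∃ n, ι n ≠ ι' n := Function.ne_iff.1 h
  exact ⟨Nat.find this, fun j hj => not_not.1 (Nat.find_min this hj), Nat.find_spec this⟩

/-- the dimension is positive -/
lemma Adm.dm_pos {W p q : ℝ} (h : Adm W p q) : 0 < dm (KK p q) := by
  have hW := h.1
  obtain ⟨k, hk⟩ := pow_unbounded_of_one_lt (10 * W ^ 2) (show (1 : ℝ) < 3 by norm_num)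
  have hk0 : k ≠ 0 := by rintro rfl; nlinarith
  have hr : (0 : ℝ) < (k : ℝ)⁻¹ := by positivity
  have h1 := dm_range_le h.ee (Real.ofDigits (b := 3)) ((5 / 2) ^ (k : ℝ)⁻¹) (k : ℝ)⁻¹ hr (by
    intro ι ι'
    by_cases hne : ι = ι'
    · rw [hne, sub_self, abs_zero]; positivity
    obtain ⟨n, hn1, hn2⟩ := first_diff hne
    have h2 := h.lower (h.cod_ee ι) (h.cod_ee ι') hn1 hn2
    refine (Real.abs_ofDigits_sub_ofDigits_le hn1).trans ?_
    rw [← Real.mul_rpow (by norm_num) (abs_nonneg _)]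
    have h3 : (10 * W ^ 2) ^ n ≤ ((3 : ℝ) ^ n) ^ k := by
      rw [← pow_mul, mul_comm n k, pow_mul]
      exact pow_le_pow_left₀ (by positivity) hk.le n
    have h4 : (((3 : ℝ) ^ n)⁻¹) ^ k ≤ 5 / 2 * |h.ee ι - h.ee ι'| := by
      rw [inv_pow, inv_le_iff_one_le_mul₀ (by positivity)]
      nlinarith [abs_nonneg (h.ee ι - h.ee ι')]
    have h5 := Real.rpow_le_rpow (by positivity) h4 hr.le
    rw [Real.pow_rpow_inv_natCast (by positivity) hk0] at h5
    exact_mod_cast h5)
  have h2 : dm (Icc 0 1) ≤ dm (range (Real.ofDigits (b := 3))) := by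
    apply dm_mono
    rw [← image_univ]
    exact Real.ofDigits_SurjOn (by norm_num)
  have h3 : dm (Icc 0 1) = 1 := by
    unfold dm
    rw [Real.dimH_of_nonempty_interior (by simp)]
    simp
  rw [h.range_ee] at h1
  nlinarith

/-- the dimension drops at much larger coupling -/
lemma Adm.dm_half {W p q W' p' q' : ℝ} (h : Adm W p q) (h' : Adm W' p' q')
    (hWW : (10 * W ^ 2) ^ 2 ≤ W') : 2 * dm (KK p' q') ≤ dm (KK p q) := by
  have h1 := dm_range_le h.ee h'.ee 13 2 two_pos (by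
    intro ι ι'
    by_cases hne : ι = ι'
    · rw [hne, sub_self, abs_zero]; positivity
    obtain ⟨n, hn1, hn2⟩ := first_diff hne
    have h2 := h.lower (h.cod_ee ι) (h.cod_ee ι') hn1 hn2
    have h3 := h'.upper (h'.cod_ee ι) (h'.cod_ee ι') hn1
    have h4 : ((10 * W ^ 2) ^ n) ^ 2 ≤ W' ^ n := by
      rw [← pow_mul, mul_comm n 2, pow_mul]
      exact pow_le_pow_left₀ (by positivity) hWW n
    rw [Real.rpow_two]
    have hW := h.1
    have p1 : 0 < (10 * W ^ 2) ^ n := by positivity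
    set A := (10 * W ^ 2) ^ n
    set x := |h.ee ι - h.ee ι'|
    set y := |h'.ee ι - h'.ee ι'|
    have hy : 0 ≤ y := abs_nonneg _
    have h5 : A ^ 2 * y ≤ 2 := by nlinarith
    have h6 : 4 / 25 ≤ A ^ 2 * x ^ 2 := by nlinarith
    by_contra hc
    push Not at hc
    nlinarith [sq_pos_of_pos p1])
  rwa [h.range_ee, h'.range_ee] at h1

/-- concatenation of a finite initial piece with a tail -/
def cat (m : ℕ) (κ ι : ℕ → Fin 3) : ℕ → Fin 3 := fun k => if k < m then κ k else ι (k - m)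

lemma cat_add (m : ℕ) (κ ι : ℕ → Fin 3) : (fun k => cat m κ ι (m + k)) = ι := by
  funext k; simp [cat]

/-- the key comparison: the dimension is at least the one of the off-diagonal model with the
same value of the invariant -/
lemma Adm.dm_le {W p q p' b0 : ℝ} (h : Adm W p q) (h' : Adm W p' 0) (hb0 : b0 ∈ KK p q)
    (hv : fv (init p q b0) = DD p' ^ 2) : dm (KK p' 0) ≤ dm (KK p q) := by
  have hW := h.1
  obtain ⟨K, hK0, hK⟩ := compare_PG hW
  rw [← h.range_ee] at hb0
  obtain ⟨κ, rfl⟩ := hb0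
  have hp0 : p ≠ 0 := by linarith [h.2.1]
  have hp0' : p' ≠ 0 := by linarith [h'.2.1]
  have key : ∀ r : ℝ, 0 < r → r < 1 → r * dm (KK p' 0) ≤ dm (KK p q) := by
    intro r hr0 hr1
    obtain ⟨m, hm⟩ := pow_unbounded_of_one_lt (K * |DD p| * 2 / (1 - r)) (show (1 : ℝ) < W by linarith)
    have pW : 0 < W ^ m := by positivity
    set ε : ℝ := |DD p| * 2 / W ^ m with hε
    have hε0 : 0 ≤ ε := by positivity
    have hKε : K * ε ≤ 1 - r := by
      rw [div_lt_iff₀ (by linarith)] at hm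
      rw [hε, ← mul_div_assoc, div_le_iff₀ pW]
      nlinarith
    let eA : (ℕ → Fin 3) → ℝ := fun ι => h.ee (cat m κ ι)
    let sA : (ℕ → Fin 3) → St := fun ι => orb (init p q (eA ι)) (cat m κ ι) m
    have cA : ∀ ι, Cod W (sA ι) ι := fun ι => by
      have := (h.cod_ee (cat m κ ι)).shift m
      rwa [cat_add] at this
    have vA : ∀ ι b, |fv (sA ι) - fv (init p' 0 b)| ≤ ε := by
      intro ι b
      have h1 := h.upper (h.cod_ee (cat m κ ι)) (h.cod_ee κ) (n := m)
        (fun j hj => by simp [cat, hj])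
      have e : fv (sA ι) - fv (init p' 0 b) = (eA ι - h.ee κ) * q * DD p := by
        simp only [sA, fv_orb]
        rw [fv_init hp0', fv_init hp0, ← hv, fv_init hp0]; ring
      rw [e, abs_mul, abs_mul, hε, le_div_iff₀ pW]
      have h2 := h.2.2.1
      have h3 : |eA ι - h.ee κ| * |q| ≤ |eA ι - h.ee κ| := mul_le_of_le_one_right (abs_nonneg _) h2
      have h4 : |eA ι - h.ee κ| * |q| * W ^ m ≤ 2 := by nlinarith
      nlinarith [abs_nonneg (DD p)]
    have h1 := dm_range_le eA h'.ee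
      (5 * Real.exp (4 * K) * (10 * W ^ 2) ^ m * 2 ^ (1 - r)) r hr0 (by
      intro ι ι'
      by_cases hne : ι = ι'
      · rw [hne, sub_self, abs_zero]; positivity
      obtain ⟨n, hn1, hn2⟩ := first_diff hne
      have hag : ∀ j < m + n, cat m κ ι j = cat m κ ι' j := by
        intro j hj
        simp only [cat]
        split_ifs with h1
        · rfl
        · exact hn1 _ (by omega)
      have e0 : ∀ j ≤ m, orb (init p q (eA ι')) (cat m κ ι) j = orb (init p q (eA ι')) (cat m κ ι') j :=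
        fun j hj => orb_congr _ fun k hk => hag k (by omega)
      obtain ⟨z1, -, z3, z4⟩ := pair_props hW (n := m) (fun j _ => h.cod_ee (cat m κ ι) j)
        (fun j hj => by rw [e0 j hj]; exact h.cod_ee (cat m κ ι') j) (norm_z0 h.2.1)
        (init_sub p q (eA ι) (eA ι')) m le_rfl
      rw [e0 m le_rfl] at z4
      set z := zz (init p q (eA ι)) (init p q (eA ι')) (cat m κ ι) (1 / p, 0) m
      set g := PG (init p q (eA ι)) (init p q (eA ι')) (cat m κ ι) (1 / p, 0) m
      have a1 := (pair_est hW (cA ι) (cA ι') hn1 z1 z4).2 hn2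
      have a2 := (pair_est hW (h'.cod_ee ι) (h'.cod_ee ι') hn1 (norm_z0 h'.2.1)
        (init_sub p' 0 (h'.ee ι) (h'.ee ι'))).1
      have e1 : ∀ (t : St), ∀ j ≤ n, orb t ι j = orb t ι' j :=
        fun t j hj => orb_congr t fun k hk => hn1 k (by omega)
      have a3 := hK (sA ι) (sA ι') (init p' 0 (h'.ee ι)) (init p' 0 (h'.ee ι')) ι z (1 / p', 0) n ε hε0
        (fun j _ => cA ι j) (fun j hj => by rw [e1 _ j hj]; exact cA ι' j)
        (fun j _ => h'.cod_ee ι j) (fun j hj => by rw [e1 _ j hj]; exact h'.cod_ee ι' j)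
        z1 (norm_z0 h'.2.1)
        (fun j _ => orb_close hW (cA ι) (h'.cod_ee ι) (vA _ _) j)
        (fun j hj => by rw [e1 _ j hj, e1 _ j hj]; exact orb_close hW (cA ι') (h'.cod_ee ι') (vA _ _) j)
      have a4 := h.upper (h.cod_ee (cat m κ ι)) (h.cod_ee (cat m κ ι')) hag
      set x := |eA ι - eA ι'| with hx
      set y := |h'.ee ι - h'.ee ι'|
      set gA := |PG (sA ι) (sA ι') ι z n|
      set gB := |PG (init p' 0 (h'.ee ι)) (init p' 0 (h'.ee ι')) ι (1 / p', 0) n|
      rw [abs_mul, ← hx] at a1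
      have x0 : 0 ≤ x := abs_nonneg _
      have y0 : 0 ≤ y := abs_nonneg _
      have gA0 : 0 ≤ gA := abs_nonneg _
      have gB0 : 0 ≤ gB := abs_nonneg _
      have xpos : 0 < x := by
        rcases x0.lt_or_eq with h1 | h1
        · exact h1
        · rw [← h1] at a1; norm_num at a1
      set E := Real.exp (K * (4 + ε * n))
      have E0 : 0 < E := Real.exp_pos _
      have b1 : 2 / 5 ≤ x * (10 * W ^ 2) ^ m * (E * gB) :=
        a1.trans (mul_le_mul (mul_le_mul_of_nonneg_left z3 x0) a3 gA0 (by positivity))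
      have b2 : y ≤ 5 * E * (10 * W ^ 2) ^ m * x := by
        have := mul_le_mul_of_nonneg_left b1 y0
        have h5 : y * (x * (10 * W ^ 2) ^ m * (E * gB)) = (y * gB) * (E * (10 * W ^ 2) ^ m * x) := by
          ring
        have h6 : (y * gB) * (E * (10 * W ^ 2) ^ m * x) ≤ 2 * (E * (10 * W ^ 2) ^ m * x) :=
          mul_le_mul_of_nonneg_right a2 (by positivity)
        linarith
      have b3 : Real.exp n ≤ 2 / x := by
        have h5 : Real.exp n ≤ W ^ n := by
          rw [← mul_one (n : ℝ), Real.exp_nat_mul]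
          exact pow_le_pow_left₀ (Real.exp_pos _).le (by linarith [Real.exp_one_lt_d9]) n
        have h6 : W ^ n ≤ W ^ (m + n) := pow_le_pow_right₀ (by linarith) (by omega)
        rw [le_div_iff₀ xpos]
        nlinarith
      have b4 : E ≤ Real.exp (4 * K) * (2 / x) ^ (1 - r) := by
        have h5 : E ≤ Real.exp (4 * K) * Real.exp (n * (1 - r)) := by
          rw [← Real.exp_add]
          apply Real.exp_le_exp.2
          have : (0 : ℝ) ≤ n := Nat.cast_nonneg n
          nlinarith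
        rw [Real.exp_mul (n : ℝ) (1 - r)] at h5
        exact h5.trans (mul_le_mul_of_nonneg_left
          (Real.rpow_le_rpow (Real.exp_pos _).le b3 (by linarith)) (Real.exp_pos _).le)
      have b5 : (2 / x) ^ (1 - r) * x = 2 ^ (1 - r) * x ^ r := by
        rw [Real.div_rpow (by norm_num) x0, Real.rpow_sub xpos, Real.rpow_one]
        field_simp
      calc y ≤ 5 * E * (10 * W ^ 2) ^ m * x := b2
        _ ≤ 5 * (Real.exp (4 * K) * (2 / x) ^ (1 - r)) * (10 * W ^ 2) ^ m * x := by gcongr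
        _ = 5 * Real.exp (4 * K) * (10 * W ^ 2) ^ m * ((2 / x) ^ (1 - r) * x) := by ring
        _ = _ := by rw [b5]; ring)
    rw [h'.range_ee] at h1
    refine h1.trans (dm_mono ?_)
    rw [← h.range_ee]
    rintro _ ⟨ι, rfl⟩
    exact mem_range_self _
  by_contra hc
  push Not at hc
  have d0 := dm_nonneg (KK p q)
  have d1 : 0 < dm (KK p' 0) := by linarith
  have := key ((dm (KK p q) / dm (KK p' 0) + 1) / 2) (by positivity)
    (by have := (div_lt_one d1).2 hc; linarith)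
  have e : (dm (KK p q) / dm (KK p' 0) + 1) / 2 * dm (KK p' 0) = (dm (KK p q) + dm (KK p' 0)) / 2 := by
    field_simp
  linarith

end Pool.Agent.MP_47b204_mp.H45
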