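import Mathlib

set_option autoImplicit false

namespace Pool.Agent.MP_47b204_mp.H45

open Filter Topology Set

/-- states of the trace map -/
abbrev St := ℝ × ℝ × ℝ

/-- the trace map -/
def tr (s : St) : St := (s.2.1, s.2.2, 2 * s.2.1 * s.2.2 - s.1)

/-- the Fricke-Vogt invariant -/
def fv (s : St) : ℝ := s.1 ^ 2 + s.2.1 ^ 2 + s.2.2 ^ 2 - 2 * s.1 * s.2.1 * s.2.2 - 1

/-- the next half trace -/
def cc (s : St) : ℝ := 2 * s.2.2 * s.2.1 - s.1

/-- the three branches of the return map -/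
def FF : Fin 3 → St → St
  | 0, s => (-cc s, s.2.1 - 2 * cc s * s.2.2, 2 * cc s * (2 * cc s * s.2.2 - s.2.1) - s.2.2)
  | 1, s => (s.2.2, cc s, 2 * cc s * s.2.2 - s.2.1)
  | 2, s => (-s.2.2, -cc s, 2 * cc s * s.2.2 - s.2.1)

/-- return times -/
def len : Fin 3 → ℕ
  | 0 => 3
  | 1 => 2
  | 2 => 2

lemma fin3 (i : Fin 3) : i = 0 ∨ i = 1 ∨ i = 2 := by fin_cases i <;> simp

lemma fv_FF (i : Fin 3) (s : St) : fv (FF i s) = fv s := by
  rcases fin3 i with rfl | rfl | rfl <;> simp only [fv, FF, cc] <;> ring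

lemma continuous_FF (i : Fin 3) : Continuous (FF i) := by
  rcases fin3 i with rfl | rfl | rfl
  · change Continuous fun s : St => ((-cc s, s.2.1 - 2 * cc s * s.2.2,
      2 * cc s * (2 * cc s * s.2.2 - s.2.1) - s.2.2) : St)
    unfold cc; fun_prop
  · change Continuous fun s : St => ((s.2.2, cc s, 2 * cc s * s.2.2 - s.2.1) : St)
    unfold cc; fun_prop
  · change Continuous fun s : St => ((-s.2.2, -cc s, 2 * cc s * s.2.2 - s.2.1) : St)
    unfold cc; fun_prop

/-- the sequence of half traces -/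
def XX (s : St) (n : ℕ) : ℝ := (tr^[n] s).2.2

lemma XX_succ (s : St) (n : ℕ) : XX s (n + 1) = XX (tr s) n := by
  simp [XX, Function.iterate_succ_apply]

/-- even sign changes -/
def sg (e1 e2 : ℝ) (s : St) : St := (e1 * s.1, e2 * s.2.1, e1 * e2 * s.2.2)

lemma sq_eq_one_iff_of_ne_zero_aux (e : ℝ) (he : e ^ 2 = 1) : e = 1 ∨ e = -1 := by
  have : (e - 1) * (e + 1) = 0 := by linear_combination he
  rcases mul_eq_zero.1 this with h | h
  · left; linarith
  · right; linarith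

lemma abs_XX_sg (n : ℕ) : ∀ (e1 e2 : ℝ) (s : St), e1 ^ 2 = 1 → e2 ^ 2 = 1 →
    |XX (sg e1 e2 s) n| = |XX s n| := by
  induction n with
  | zero =>
    intro e1 e2 s h1 h2
    simp only [XX, sg, Function.iterate_zero, id, abs_mul]
    have k : ∀ e : ℝ, e ^ 2 = 1 → |e| = 1 := fun e he => by
      rcases sq_eq_one_iff_of_ne_zero_aux e he with h | h <;> simp [h]
    rw [k _ h1, k _ h2]; ring
  | succ n ih =>
    intro e1 e2 s h1 h2
    rw [XX_succ, XX_succ, ← ih e2 (e1 * e2) (tr s) h2 (by rw [mul_pow, h1, h2, one_mul])]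
    congr 2
    simp only [tr, sg, Prod.mk.injEq, true_and]
    linear_combination (2 * e1 * s.2.1 * s.2.2 - e1 * (2 * s.2.1 * s.2.2 - s.1)) * h2

lemma abs_XX_FF (i : Fin 3) (s : St) (n : ℕ) : |XX (FF i s) n| = |XX s (n + len i)| := by
  rcases fin3 i with rfl | rfl | rfl
  · have : FF 0 s = sg (-1) (-1) (tr (tr (tr s))) := by
      simp only [FF, sg, tr, cc, Prod.mk.injEq]
      refine ⟨by ring, by ring, by ring⟩
    rw [this, abs_XX_sg _ _ _ _ (by norm_num) (by norm_num)]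
    simp only [len, XX_succ]
  · have : FF 1 s = tr (tr s) := by
      simp only [FF, tr, cc, Prod.mk.injEq]
      refine ⟨trivial, by ring, by ring⟩
    rw [this]
    simp only [len, XX_succ]
  · have : FF 2 s = sg (-1) (-1) (tr (tr s)) := by
      simp only [FF, sg, tr, cc, Prod.mk.injEq]
      refine ⟨by ring, by ring, by ring⟩
    rw [this, abs_XX_sg _ _ _ _ (by norm_num) (by norm_num)]
    simp only [len, XX_succ]

/-- bounded orbit -/
def Bd (s : St) : Prop := ∃ C, ∀ n, |XX s n| ≤ C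

/-- escaping orbit -/
def Esc (s : St) : Prop := Tendsto (fun n => |XX s n|) atTop atTop

lemma Esc.of_FF {i : Fin 3} {s : St} (h : Esc (FF i s)) : Esc s := by
  unfold Esc at *
  simp only [abs_XX_FF] at h
  exact (tendsto_add_atTop_iff_nat (len i)).1 h

lemma esc_of_large {s : St} (hy : 1 < |s.2.1|) (hz : 1 < |s.2.2|)
    (hx : |s.1| ≤ |s.2.1| * |s.2.2|) : Esc s := by
  set μ := min |s.2.1| |s.2.2| with hμ
  have hμ1 : 1 < μ := lt_min hy hz
  have key : ∀ n, μ ≤ |(tr^[n] s).2.1| ∧ μ ≤ |(tr^[n] s).2.2| ∧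
      |(tr^[n] s).1| ≤ |(tr^[n] s).2.1| * |(tr^[n] s).2.2| ∧ μ ^ n ≤ |(tr^[n] s).2.2| := by
    intro n
    induction n with
    | zero => exact ⟨min_le_left _ _, min_le_right _ _, hx, by simpa using hz.le⟩
    | succ n ih =>
      rw [Function.iterate_succ_apply']
      obtain ⟨h1, h2, h3, h4⟩ := ih
      generalize tr^[n] s = t at h1 h2 h3 h4
      have e : |t.2.1| * |t.2.2| ≤ |2 * t.2.1 * t.2.2 - t.1| := by
        have := abs_sub_abs_le_abs_sub (2 * t.2.1 * t.2.2) t.1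
        rw [abs_mul, abs_mul, abs_two] at this
        linarith
      have p1 : 0 ≤ μ ^ n := by positivity
      simp only [tr]
      have e2 : |t.2.1| ≤ |2 * t.2.1 * t.2.2 - t.1| := by nlinarith
      refine ⟨h2, by linarith, by nlinarith, ?_⟩
      rw [pow_succ]
      nlinarith
  exact tendsto_atTop_mono (fun n => (key n).2.2.2) (tendsto_pow_atTop_atTop_of_one_lt hμ1)

/-- the trapping region -/
def Rg (W : ℝ) (s : St) : Prop := |s.1| ≤ 1 ∧ |s.2.2| ≤ 1 ∧ W ≤ s.2.1 ∧ s.2.1 ≤ W + 5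

/-- the admissible range of the invariant -/
def VOk (W v : ℝ) : Prop := (W + 1) ^ 2 ≤ v ∧ v ≤ (W + 3) ^ 2

lemma le_of_sq_le_sq_aux {x y : ℝ} (h : x ^ 2 ≤ y ^ 2) (hy : 0 ≤ y) : x ≤ y :=
  (abs_le_of_sq_le_sq' h hy).2

lemma Rg_of {W : ℝ} (hW : 100 ≤ W) {s : St} (hv : VOk W (fv s)) (ha : |s.1| ≤ 1)
    (hb : |s.2.2| ≤ 1) (hL : 1 ≤ s.2.1) : Rg W s := by
  obtain ⟨a, L, b⟩ := s
  simp only [Rg, VOk, fv] at *
  have hab : |a * b| ≤ 1 := by rw [abs_mul]; nlinarith [abs_nonneg a, abs_nonneg b]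
  have ha2 : a ^ 2 ≤ 1 := by rw [← sq_abs]; nlinarith [abs_nonneg a]
  have hb2 : b ^ 2 ≤ 1 := by rw [← sq_abs]; nlinarith [abs_nonneg b]
  obtain ⟨hab1, hab2⟩ := abs_le.1 hab
  have e : (L - a * b) ^ 2 = (a ^ 2 + L ^ 2 + b ^ 2 - 2 * a * L * b - 1) + (1 - a ^ 2) * (1 - b ^ 2) := by
    ring
  have p1 : 0 ≤ (1 - a ^ 2) * (1 - b ^ 2) := mul_nonneg (by linarith) (by linarith)
  have p2 : (1 - a ^ 2) * (1 - b ^ 2) ≤ 1 := by nlinarith [sq_nonneg a, sq_nonneg b]
  have l1 : W + 1 ≤ L - a * b := by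
    apply le_of_sq_le_sq_aux <;> nlinarith
  have l2 : L - a * b ≤ W + 4 := by
    apply le_of_sq_le_sq_aux <;> nlinarith
  exact ⟨ha, hb, by linarith, by linarith⟩

/-- orbit along an itinerary -/
def orb (s : St) (ι : ℕ → Fin 3) : ℕ → St
  | 0 => s
  | j + 1 => FF (ι j) (orb s ι j)

lemma orb_add (s : St) (ι : ℕ → Fin 3) (m j : ℕ) :
    orb s ι (m + j) = orb (orb s ι m) (fun k => ι (m + k)) j := by
  induction j with
  | zero => rfl
  | succ j ih => rw [← add_assoc, orb, orb, ih]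

lemma orb_congr (s : St) {ι ι' : ℕ → Fin 3} {n : ℕ} (h : ∀ j < n, ι j = ι' j) :
    orb s ι n = orb s ι' n := by
  induction n with
  | zero => rfl
  | succ n ih => rw [orb, orb, ih fun j hj => h j (by omega), h n (by omega)]

lemma fv_orb (s : St) (ι : ℕ → Fin 3) (j : ℕ) : fv (orb s ι j) = fv s := by
  induction j with
  | zero => rfl
  | succ j ih => rw [orb, fv_FF, ih]

/-- the state has the itinerary -/
def Cod (W : ℝ) (s : St) (ι : ℕ → Fin 3) : Prop := ∀ j, Rg W (orb s ι j)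

lemma Cod.shift {W : ℝ} {s : St} {ι : ℕ → Fin 3} (h : Cod W s ι) (m : ℕ) :
    Cod W (orb s ι m) (fun k => ι (m + k)) := fun j => by rw [← orb_add]; exact h _

lemma Cod.bd {W : ℝ} (hW : 100 ≤ W) {s : St} {ι : ℕ → Fin 3} (h : Cod W s ι) : Bd s := by
  refine ⟨W + 5, fun n => ?_⟩
  induction n using Nat.strong_induction_on generalizing s ι with
  | _ n ih =>
    have h0 := h 0
    have h1 := h 1
    simp only [orb] at h0 h1
    by_cases hn : len (ι 0) ≤ n
    · obtain ⟨m, rfl⟩ := Nat.exists_eq_add_of_le' hn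
      rw [← abs_XX_FF]
      have hl : 0 < len (ι 0) := by rcases fin3 (ι 0) with e | e | e <;> simp [e, len]
      exact ih m (by omega) (h.shift 1)
    · have c0 : |XX s 0| ≤ W + 5 := by
        have := h0.2.1
        simp only [XX, Function.iterate_zero, id]; linarith
      have e1 : XX s 1 = cc s := by simp only [XX, tr, cc, Function.iterate_one]; ring
      have e2 : XX s 2 = 2 * cc s * s.2.2 - s.2.1 := by
        simp only [XX, tr, cc, Function.iterate_succ, Function.comp, Function.iterate_zero, id]; ring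
      rcases fin3 (ι 0) with e | e | e <;> rw [e] at hn h1 <;> simp only [len, FF, Rg] at hn h1
      · have : n = 0 ∨ n = 1 ∨ n = 2 := by omega
        rcases this with rfl | rfl | rfl
        · exact c0
        · rw [e1, ← abs_neg]; linarith [h1.1]
        · rw [e2, abs_le]; constructor <;> linarith [h1.2.2.1, h1.2.2.2]
      · have : n = 0 ∨ n = 1 := by omega
        rcases this with rfl | rfl
        · exact c0
        · rw [e1, abs_le]; constructor <;> linarith [h1.2.2.1, h1.2.2.2]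
      · have : n = 0 ∨ n = 1 := by omega
        rcases this with rfl | rfl
        · exact c0
        · rw [e1, abs_le]; constructor <;> linarith [h1.2.2.1, h1.2.2.2]

lemma one_step {W : ℝ} (hW : 100 ≤ W) {s : St} (hv : VOk W (fv s)) (hs : Rg W s) (he : ¬ Esc s) :
    ∃ i, Rg W (FF i s) := by
  obtain ⟨ha, hb, hL, hL'⟩ := hs
  have key : ∀ i, |(FF i s).1| ≤ 1 → 1 < (FF i s).2.1 → Rg W (FF i s) := by
    intro i h1 h2
    refine Rg_of hW (by rwa [fv_FF]) h1 ?_ h2.le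
    by_contra h3
    push Not at h3
    have h4 : 1 < |(FF i s).2.1| := lt_of_lt_of_le h2 (le_abs_self _)
    exact he (Esc.of_FF (esc_of_large h4 h3 (by nlinarith)))
  by_cases hc : |cc s| ≤ 1
  · refine ⟨0, key 0 (by simpa [FF] using hc) ?_⟩
    simp only [FF]
    have : |cc s * s.2.2| ≤ 1 := by rw [abs_mul]; nlinarith [abs_nonneg (cc s), abs_nonneg s.2.2]
    have := (abs_le.1 this).2
    linarith
  · push Not at hc
    rcases lt_abs.1 hc with h | h
    · exact ⟨1, key 1 hb h⟩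
    · exact ⟨2, key 2 (by simpa [FF] using hb) h⟩

lemma esc_or_cod {W : ℝ} (hW : 100 ≤ W) {s : St} (hv : VOk W (fv s)) (hs : Rg W s) :
    Esc s ∨ ∃ ι, Cod W s ι := by
  by_cases he : Esc s
  · exact Or.inl he
  right
  let P : St → Prop := fun t => VOk W (fv t) ∧ Rg W t ∧ ¬ Esc t
  have step : ∀ t : {t // P t}, ∃ i, P (FF i t.1) := by
    rintro ⟨t, h1, h2, h3⟩
    obtain ⟨i, hi⟩ := one_step hW h1 h2 h3
    exact ⟨i, by rwa [fv_FF], hi, fun h => h3 h.of_FF⟩
  choose nx hnx using step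
  let sq : ℕ → {t // P t} := fun n => Nat.rec ⟨s, hv, hs, he⟩ (fun _ t => ⟨_, hnx t⟩) n
  refine ⟨fun j => nx (sq j), fun j => ?_⟩
  have : ∀ j, orb s (fun j => nx (sq j)) j = (sq j).1 := by
    intro j
    induction j with
    | zero => rfl
    | succ j ih => rw [orb, ih]
  rw [this]
  exact (sq j).2.2.1

section Existence

lemma cross_left {f : ℝ → ℝ} (hf : Continuous f) {u v α : ℝ} (hu : f u ≤ α) (hv : α ≤ f v) :
    ∃ u' ∈ uIcc u v, f u' = α ∧ ∀ x ∈ uIcc u' v, α ≤ f x := by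
  have hK : IsCompact (uIcc u v ∩ {x | f x ≤ α}) :=
    isCompact_uIcc.inter_right (isClosed_le hf continuous_const)
  obtain ⟨w, ⟨hw1, hw2⟩, hw3⟩ := hK.exists_isMinOn ⟨u, left_mem_uIcc, hu⟩
    (f := fun x => |x - v|) (by fun_prop)
  have hsub : uIcc w v ⊆ uIcc u v := uIcc_subset_uIcc hw1 right_mem_uIcc
  have key : ∀ x ∈ uIcc w v, f x ≤ α → x = w := by
    intro x hx hfx
    have h1 : |w - v| ≤ |x - v| := hw3 ⟨hsub hx, hfx⟩
    rcases mem_uIcc.1 hx with ⟨h2, h3⟩ | ⟨h2, h3⟩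
    · rw [abs_of_nonpos (by linarith), abs_of_nonpos (by linarith)] at h1; linarith
    · rw [abs_of_nonneg (by linarith), abs_of_nonneg (by linarith)] at h1; linarith
  obtain ⟨y, hy, hfy⟩ : α ∈ f '' uIcc w v :=
    intermediate_value_uIcc hf.continuousOn (mem_uIcc.2 (Or.inl ⟨hw2, hv⟩))
  have hyw := key y hy hfy.le
  subst hyw
  refine ⟨y, hw1, hfy, fun x hx => ?_⟩
  by_contra hc
  push Not at hc
  rw [key x hx hc.le] at hc
  linarith

lemma cross_both {f : ℝ → ℝ} (hf : Continuous f) {u v : ℝ} (hu : f u ≤ -1) (hv : 1 ≤ f v) :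
    ∃ u' v', uIcc u' v' ⊆ uIcc u v ∧ f u' = -1 ∧ f v' = 1 ∧ ∀ x ∈ uIcc u' v', |f x| ≤ 1 := by
  obtain ⟨u', hu', e1, h1⟩ := cross_left hf hu (by linarith : (-1 : ℝ) ≤ f v)
  obtain ⟨v', hv', e2, h2⟩ := cross_left (f := fun x => -f x) hf.neg (u := v) (v := u') (α := -1)
    (by linarith) (by linarith)
  rw [uIcc_comm] at hv'
  have hs : uIcc u' v' ⊆ uIcc u' v := uIcc_subset_uIcc left_mem_uIcc hv'
  refine ⟨u', v', hs.trans (uIcc_subset_uIcc hu' right_mem_uIcc), e1, by linarith, fun x hx => ?_⟩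
  have := h1 x (hs hx)
  have := h2 x (by rwa [uIcc_comm])
  rw [abs_le]; constructor <;> linarith

lemma path_step {W : ℝ} (hW : 100 ≤ W) {s : ℝ → St} (hs : Continuous s) {u v : ℝ}
    (hR : ∀ x ∈ uIcc u v, Rg W (s x) ∧ VOk W (fv (s x))) (hu : (s u).2.2 = -1) (hv : (s v).2.2 = 1)
    (i : Fin 3) : ∃ u' v', uIcc u' v' ⊆ uIcc u v ∧ (∀ x ∈ uIcc u' v', Rg W (FF i (s x))) ∧
      (FF i (s u')).2.2 = -1 ∧ (FF i (s v')).2.2 = 1 := by
  have hc : Continuous fun x => cc (s x) := by unfold cc; fun_prop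
  have hF : Continuous fun x => (FF i (s x)).2.2 := by
    have := (continuous_FF i).comp hs
    fun_prop
  obtain ⟨⟨ua, -, uL, uL'⟩, -⟩ := hR u left_mem_uIcc
  obtain ⟨⟨va, -, vL, vL'⟩, -⟩ := hR v right_mem_uIcc
  have ua' := abs_le.1 ua
  have va' := abs_le.1 va
  have cu : cc (s u) = -2 * (s u).2.1 - (s u).1 := by simp only [cc, hu]; ring
  have cv : cc (s v) = 2 * (s v).2.1 - (s v).1 := by simp only [cc, hv]; ring
  have fin : ∀ u1 v1, uIcc u1 v1 ⊆ uIcc u v → (∀ x ∈ uIcc u1 v1, |(FF i (s x)).1| ≤ 1 ∧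
      1 ≤ (FF i (s x)).2.1) → (FF i (s u1)).2.2 ≤ -1 → 1 ≤ (FF i (s v1)).2.2 →
      ∃ u' v', uIcc u' v' ⊆ uIcc u v ∧ (∀ x ∈ uIcc u' v', Rg W (FF i (s x))) ∧
        (FF i (s u')).2.2 = -1 ∧ (FF i (s v')).2.2 = 1 := by
    intro u1 v1 h1 h2 h3 h4
    obtain ⟨u', v', g1, g2, g3, g4⟩ := cross_both hF h3 h4
    refine ⟨u', v', g1.trans h1, fun x hx => ?_, g2, g3⟩
    exact Rg_of hW (by rw [fv_FF]; exact (hR x (h1 (g1 hx))).2) (h2 x (g1 hx)).1 (g4 x hx)
      (h2 x (g1 hx)).2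
  rcases fin3 i with rfl | rfl | rfl
  · obtain ⟨u1, v1, g1, g2, g3, g4⟩ := cross_both hc (u := u) (v := v) (by linarith) (by linarith)
    obtain ⟨⟨-, ub, uL1, -⟩, -⟩ := hR u1 (g1 left_mem_uIcc)
    obtain ⟨⟨-, vb, vL1, -⟩, -⟩ := hR v1 (g1 right_mem_uIcc)
    have ub' := abs_le.1 ub
    have vb' := abs_le.1 vb
    apply fin v1 u1 (by rwa [uIcc_comm])
    · intro x hx
      rw [uIcc_comm] at hx
      obtain ⟨⟨-, xb, xL, -⟩, -⟩ := hR x (g1 hx)
      have h1 := g4 x hx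
      have : |cc (s x) * (s x).2.2| ≤ 1 := by
        rw [abs_mul]; nlinarith [abs_nonneg (cc (s x)), abs_nonneg (s x).2.2]
      have := (abs_le.1 this).2
      exact ⟨by simpa [FF] using h1, by simp only [FF]; linarith⟩
    · simp only [FF, g3]; linarith
    · simp only [FF, g2]; linarith
  · obtain ⟨u1, g1, g2, g3⟩ := cross_left hc (u := u) (v := v) (α := 2) (by linarith) (by linarith)
    have g4 : uIcc u1 v ⊆ uIcc u v := uIcc_subset_uIcc g1 right_mem_uIcc
    obtain ⟨⟨-, ub, uL1, -⟩, -⟩ := hR u1 g1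
    have ub' := abs_le.1 ub
    apply fin u1 v g4
    · intro x hx
      obtain ⟨⟨-, xb, -, -⟩, -⟩ := hR x (g4 hx)
      exact ⟨xb, by simp only [FF]; linarith [g3 x hx]⟩
    · simp only [FF, g2]; linarith
    · simp only [FF, hv, cv]; linarith
  · obtain ⟨v1, g1, g2, g3⟩ := cross_left (f := fun x => -cc (s x)) hc.neg (u := v) (v := u)
      (α := 2) (by linarith) (by linarith)
    have g4 : uIcc v1 u ⊆ uIcc u v := uIcc_subset_uIcc (by rwa [uIcc_comm]) left_mem_uIcc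
    obtain ⟨⟨-, vb, vL1, -⟩, -⟩ := hR v1 (g4 left_mem_uIcc)
    have vb' := abs_le.1 vb
    have g2' : cc (s v1) = -2 := by linarith
    apply fin v1 u g4
    · intro x hx
      obtain ⟨⟨-, xb, -, -⟩, -⟩ := hR x (g4 hx)
      exact ⟨by simpa [FF] using xb, by simp only [FF]; linarith [g3 x hx]⟩
    · simp only [FF, g2']; linarith
    · simp only [FF, hu, cu]; linarith

lemma continuous_orb {s : ℝ → St} (hs : Continuous s) (ι : ℕ → Fin 3) (j : ℕ) :
    Continuous fun x => orb (s x) ι j := by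
  induction j with
  | zero => exact hs
  | succ j ih => exact (continuous_FF _).comp ih

lemma isClosed_Rg (W : ℝ) : IsClosed {s : St | Rg W s} := by
  have h1 : IsClosed {s : St | |s.1| ≤ 1} := isClosed_le (by fun_prop) continuous_const
  have h2 : IsClosed {s : St | |s.2.2| ≤ 1} := isClosed_le (by fun_prop) continuous_const
  have h3 : IsClosed {s : St | W ≤ s.2.1} := isClosed_le continuous_const (by fun_prop)
  have h4 : IsClosed {s : St | s.2.1 ≤ W + 5} := isClosed_le (by fun_prop) continuous_const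
  exact h1.inter (h2.inter (h3.inter h4))

/-- every itinerary is realised along a path crossing the region -/
lemma exists_cod {W : ℝ} (hW : 100 ≤ W) {s : ℝ → St} (hs : Continuous s)
    (hR : ∀ x ∈ Icc (-1 : ℝ) 1, Rg W (s x) ∧ VOk W (fv (s x))) (hu : (s (-1)).2.2 = -1)
    (hv : (s 1).2.2 = 1) (ι : ℕ → Fin 3) : ∃ x ∈ Icc (-1 : ℝ) 1, Cod W (s x) ι := by
  have key : ∀ j, ∃ u v, uIcc u v ⊆ Icc (-1 : ℝ) 1 ∧
      (∀ x ∈ uIcc u v, ∀ i ≤ j, Rg W (orb (s x) ι i)) ∧
      (orb (s u) ι j).2.2 = -1 ∧ (orb (s v) ι j).2.2 = 1 := by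
    intro j
    induction j with
    | zero =>
      have e : uIcc (-1 : ℝ) 1 = Icc (-1) 1 := uIcc_of_le (by norm_num)
      refine ⟨-1, 1, e.subset, fun x hx i hi => ?_, hu, hv⟩
      rw [Nat.le_zero.1 hi]
      exact (hR x (e ▸ hx)).1
    | succ j ih =>
      obtain ⟨u, v, h1, h2, h3, h4⟩ := ih
      obtain ⟨u', v', g1, g2, g3, g4⟩ := path_step hW (continuous_orb hs ι j)
        (fun x hx => ⟨h2 x hx j le_rfl, by rw [fv_orb]; exact (hR x (h1 hx)).2⟩) h3 h4 (ι j)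
      refine ⟨u', v', g1.trans h1, fun x hx i hi => ?_, g3, g4⟩
      rcases Nat.lt_or_ge i (j + 1) with h | h
      · exact h2 x (g1 hx) i (by omega)
      · rw [le_antisymm hi h]; exact g2 x hx
  let K : ℕ → Set ℝ := fun j => Icc (-1 : ℝ) 1 ∩ ⋂ i ≤ j, {x | Rg W (orb (s x) ι i)}
  have hcl : ∀ j, IsClosed (K j) := fun j => isClosed_Icc.inter
    (isClosed_iInter fun i => isClosed_iInter fun _ =>
      (isClosed_Rg W).preimage (continuous_orb hs ι i))
  obtain ⟨x, hx⟩ := IsCompact.nonempty_iInter_of_sequence_nonempty_isCompact_isClosed K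
    (fun j x hx => ⟨hx.1, by
      have := hx.2
      simp only [mem_iInter] at this ⊢
      exact fun i hi => this i (by omega)⟩)
    (fun j => by
      obtain ⟨u, v, h1, h2, -⟩ := key j
      refine ⟨u, h1 left_mem_uIcc, ?_⟩
      simp only [mem_iInter]
      exact fun i hi => h2 u left_mem_uIcc i hi)
    (isCompact_Icc.of_isClosed_subset (hcl 0) inter_subset_left) hcl
  simp only [mem_iInter] at hx
  refine ⟨x, (hx 0).1, fun j => ?_⟩
  have := (hx j).2
  simp only [mem_iInter] at this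
  exact this j le_rfl

end Existence

end Pool.Agent.MP_47b204_mp.H45
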