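import Pool.Agent.MP_47b204_mp.H45.Dim

set_option autoImplicit false

namespace Pool.Agent.MP_47b204_mp.H45

open Filter Topology Set

lemma DD_ge {p : ℝ} (hp : 300 ≤ p) : 149 ≤ DD p ∧ (p - 1) / 2 ≤ DD p := by
  have h1 : 1 / p ≤ 1 := by rw [div_le_one (by linarith)]; linarith
  unfold DD
  constructor <;> linarith

lemma adm_of {p q : ℝ} (hp : 300 ≤ p) (hq : |q| ≤ 1) : Adm (DD p - 2) p q := by
  have hD := (DD_ge hp).1
  refine ⟨by linarith, by linarith, hq, fun b hb => ?_⟩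
  rw [fv_init (by linarith)]
  have h1 := abs_le.1 (abs_mul_le hb hq)
  have h2 := abs_le.1 (abs_mul_le hq hq)
  constructor <;> nlinarith [sq_nonneg q]

lemma exists_kappa {p q b0 : ℝ} (hp : 300 ≤ p) (hq : |q| ≤ 1) (hb0 : b0 ∈ KK p q)
    (hb1 : |b0| ≤ 1) (hb2 : 9 / 20 ≤ |b0|) :
    ∃ κ : ℝ, 1 / 10 ≤ |κ| ∧ |κ| ≤ 2 ∧ 0 < κ * b0 ∧ dm (KK (p + κ * q) 0) ≤ dm (KK p q) := by
  have hA := adm_of hp hq
  have hD := (DD_ge hp).1
  have hv := hA.2.2.2 b0 hb1
  have hp0 : 0 < p := by linarith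
  have ev := fv_init hp0.ne' q b0
  set v := fv (init p q b0)
  set D := DD p with hDdef
  obtain ⟨v1, v2⟩ := hv
  have v0 : 0 ≤ v := le_trans (sq_nonneg _) v1
  set D' := Real.sqrt v
  have sq1 : D' ^ 2 = v := Real.sq_sqrt v0
  have D1 : D - 1 ≤ D' := by
    apply le_of_sq_le_sq_aux _ (Real.sqrt_nonneg v); rw [sq1]; convert v1 using 2; ring
  have D2 : D' ≤ D + 1 := by
    apply le_of_sq_le_sq_aux _ (by linarith); rw [sq1]; convert v2 using 2; ring
  set R := Real.sqrt (v + 1)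
  have sq2 : R ^ 2 = v + 1 := Real.sq_sqrt (by linarith)
  have R0 : 0 ≤ R := Real.sqrt_nonneg _
  set p' := D' + R with hp'
  have p'2 : 2 ≤ p' := by linarith
  have p'0 : 0 < p' := by linarith
  have inv' : 1 / p' = R - D' := by
    rw [div_eq_iff p'0.ne', hp']; linear_combination sq1 - sq2
  have DD' : DD p' = D' := by rw [DD, inv', hp']; ring
  have hA' : Adm (D - 2) p' 0 := by
    refine ⟨by linarith, p'2, by simp, fun b _ => ?_⟩
    rw [fv_init p'0.ne', DD', sq1]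
    simp only [mul_zero, zero_mul, add_zero, ne_eq, OfNat.ofNat_ne_zero, not_false_eq_true,
      zero_pow, zero_div]
    exact ⟨v1, v2⟩
  have hle := hA.dm_le hA' hb0 (by rw [DD', sq1])
  set N := (D' + D) * (1 + 1 / (p * p')) with hN
  have t0 : 0 < 1 / (p * p') := by positivity
  have t1 : 1 / (p * p') ≤ 1 := by
    rw [div_le_one (by positivity)]
    exact one_le_mul_of_one_le_of_one_le (by linarith) (by linarith)
  have N1 : 2 * D - 1 ≤ N := by
    have : (2 * D - 1) * 1 ≤ (D' + D) * (1 + 1 / (p * p')) :=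
      mul_le_mul (by linarith) (by linarith) (by linarith) (by linarith)
    linarith
  have N2 : N ≤ 4 * D + 2 := by
    have : (D' + D) * (1 + 1 / (p * p')) ≤ (2 * D + 1) * 2 :=
      mul_le_mul (by linarith) (by linarith) (by linarith) (by linarith)
    linarith
  have N0 : 0 < N := by linarith
  have e1 : (p' - p) * (1 + 1 / (p * p')) = 2 * (D' - D) := by
    rw [← DD', hDdef, DD, DD]; field_simp; ring
  have e2 : (p' - p) * N = 2 * (b0 * D + q / 4) * q := by
    have : (p' - p) * N = ((p' - p) * (1 + 1 / (p * p'))) * (D' + D) := by rw [hN]; ring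
    rw [this, e1]
    linear_combination 2 * sq1 + 2 * ev
  have hq' := abs_le.1 hq
  have hb' := abs_le.1 hb1
  have u1 : b0 * D ≤ 1 * D := mul_le_mul_of_nonneg_right hb'.2 (by linarith)
  have u2 : -1 * D ≤ b0 * D := mul_le_mul_of_nonneg_right hb'.1 (by linarith)
  have u3 : 9 / 20 ≤ b0 → 9 / 20 * D ≤ b0 * D := fun h => mul_le_mul_of_nonneg_right h (by linarith)
  have u4 : 9 / 20 ≤ -b0 → 9 / 20 * D ≤ -b0 * D := fun h => mul_le_mul_of_nonneg_right h (by linarith)
  refine ⟨2 * (b0 * D + q / 4) / N, ?_, ?_, ?_, ?_⟩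
  · rw [abs_div, abs_of_pos N0, le_div_iff₀ N0, le_abs]
    rcases le_abs.1 hb2 with h | h
    · left; linarith [u3 h]
    · right; linarith [u4 h]
  · rw [abs_div, abs_of_pos N0, div_le_iff₀ N0, abs_le]
    constructor <;> linarith
  · rw [div_mul_eq_mul_div]
    apply div_pos _ N0
    rcases le_abs.1 hb2 with h | h
    · have : 0 < b0 * D + q / 4 := by linarith [u3 h]
      positivity
    · have h1 : 0 < -(b0 * D + q / 4) := by linarith [u4 h]
      have h2 : 0 < -b0 := by linarith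
      linarith [mul_pos h1 h2]
  · have : p + 2 * (b0 * D + q / 4) / N * q = p' := by
      rw [div_mul_eq_mul_div, ← e2, mul_div_cancel_right₀ _ N0.ne']; ring
    rwa [this]

lemma pos_of_mul_pos_of_nonneg_right_aux {x y : ℝ} (h : 0 < x * y) (hy : 0 ≤ y) : 0 ≤ x := by
  by_contra hc
  push Not at hc
  nlinarith

lemma exists_both {p q : ℝ} (hp : 300 ≤ p) (hq : |q| ≤ 1) (σ : ℝ) :
    ∃ κ : ℝ, 1 / 10 ≤ |κ| ∧ |κ| ≤ 2 ∧ 0 ≤ κ * σ ∧ dm (KK (p + κ * q) 0) ≤ dm (KK p q) := by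
  have hA := adm_of hp hq
  rcases le_total 0 σ with hσ | hσ
  · have hc := hA.cod_ee (fun _ => 1)
    have h1 : 9 / 20 ≤ hA.ee (fun _ => 1) := (b_range hA.1 (hc 0)).2.1 (hc 1)
    obtain ⟨κ, k1, k2, k3, k4⟩ := exists_kappa hp hq (hc.bd hA.1) (hc 0).2.1
      (h1.trans (le_abs_self _))
    refine ⟨κ, k1, k2, mul_nonneg (pos_of_mul_pos_of_nonneg_right_aux k3 (by linarith)) hσ, k4⟩
  · have hc := hA.cod_ee (fun _ => 2)
    have h1 : hA.ee (fun _ => 2) ≤ -(9 / 20) := (b_range hA.1 (hc 0)).2.2 (hc 1)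
    obtain ⟨κ, k1, k2, k3, k4⟩ := exists_kappa hp hq (hc.bd hA.1) (hc 0).2.1
      (le_abs.2 (Or.inr (by linarith)))
    refine ⟨κ, k1, k2, mul_nonneg_of_nonpos_of_nonpos ?_ hσ, k4⟩
    by_contra hκ
    push Not at hκ
    nlinarith

lemma deriv_zero_of_kink {f g : ℝ → ℝ} {p f' g' : ℝ} (hf : HasDerivAt f f' 0)
    (hg : HasDerivAt g g' p) (h0 : f 0 = g p)
    (h : ∀ q σ : ℝ, |q| ≤ 1 → ∃ κ : ℝ, 1 / 10 ≤ |κ| ∧ |κ| ≤ 2 ∧ 0 ≤ κ * σ ∧ g (p + κ * q) ≤ f q) :
    g' = 0 := by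
  by_contra hne
  have hpos : 0 < |g'| / 100 := by have := abs_pos.2 hne; positivity
  obtain ⟨δ1, d1, h1⟩ := Metric.eventually_nhds_iff.1 (hf.isLittleO.bound hpos)
  obtain ⟨δ2, d2, h2⟩ := Metric.eventually_nhds_iff.1 (hg.isLittleO.bound hpos)
  set t := min (min δ1 δ2) 1 / 4 with ht
  have m1 : min (min δ1 δ2) 1 ≤ δ1 := (min_le_left _ _).trans (min_le_left _ _)
  have m2 : min (min δ1 δ2) 1 ≤ δ2 := (min_le_left _ _).trans (min_le_right _ _)
  have m3 : min (min δ1 δ2) 1 ≤ 1 := min_le_right _ _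
  have t0 : 0 < t := by have : 0 < min (min δ1 δ2) 1 := by positivity
                        linarith
  have key : ∀ q : ℝ, |q| = t → |g'| / 20 * t ≤ f' * q := by
    intro q hq
    obtain ⟨κ, k1, k2, k3, k4⟩ := h q (g' * q) (by linarith)
    have a1 := h1 (y := q) (by rw [Real.dist_eq, sub_zero]; linarith)
    have a0 : |κ * q| ≤ 2 * t := by rw [abs_mul, hq]; nlinarith
    have a2 := h2 (y := p + κ * q) (by rw [Real.dist_eq, add_sub_cancel_left]; linarith)
    simp only [sub_zero, add_sub_cancel_left, Real.norm_eq_abs, smul_eq_mul] at a1 a2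
    have a3 : κ * q * g' = |κ| * t * |g'| := by
      rw [← hq, ← abs_mul, ← abs_mul, abs_of_nonneg (by linarith)]
    have a4 : 1 / 10 * (t * |g'|) ≤ |κ| * (t * |g'|) :=
      mul_le_mul_of_nonneg_right k1 (by positivity)
    have a5 : |g'| / 100 * |κ * q| ≤ |g'| / 100 * (2 * t) := mul_le_mul_of_nonneg_left a0 hpos.le
    rw [hq] at a1
    have b1 := (abs_le.1 a1).2
    have b2 := (abs_le.1 a2).1
    nlinarith
  have k1 := key t (abs_of_pos t0)
  have k2 := key (-t) (by rw [abs_neg, abs_of_pos t0])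
  nlinarith

/-- the dimension fails to be differentiable along a horizontal or a vertical line -/
lemma kink : ∃ p : ℝ, 300 < p ∧ (¬ DifferentiableAt ℝ (fun x => dm (KK x 0)) p ∨
    ¬ DifferentiableAt ℝ (fun t => dm (KK p t)) 0) := by
  by_contra hc
  push Not at hc
  have hd : ∀ p : ℝ, 300 < p → HasDerivAt (fun x => dm (KK x 0)) 0 p := by
    intro p hp
    obtain ⟨h1, h2⟩ := hc p hp
    have := deriv_zero_of_kink h2.hasDerivAt h1.hasDerivAt rfl
      (fun q σ hq => exists_both hp.le hq σ)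
    have h3 := h1.hasDerivAt
    rwa [this] at h3
  set W := DD 301 - 2
  set p2 := 2 * (10 * W ^ 2) ^ 2 + 301 with hp2
  have p2le : 301 ≤ p2 := by have := sq_nonneg (10 * W ^ 2); linarith
  have hconst := constant_of_has_deriv_right_zero (f := fun x => dm (KK x 0)) (a := 301) (b := p2)
    (fun x hx => (hd x (by linarith [hx.1])).continuousAt.continuousWithinAt)
    (fun x hx => (hd x (by linarith [hx.1])).hasDerivWithinAt) p2 ⟨p2le, le_rfl⟩
  have A1 := adm_of (p := 301) (q := 0) (by norm_num) (by simp)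
  have A2 := adm_of (p := p2) (q := 0) (by linarith) (by simp)
  have h1 := A1.dm_half A2 (by have := (DD_ge (p := p2) (by linarith)).2; linarith)
  have h2 := A1.dm_pos
  linarith

end Pool.Agent.MP_47b204_mp.H45
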