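import Pool.Agent.MP_47b204_mp.H45.Defs

set_option autoImplicit false

namespace Pool.Agent.MP_47b204_mp.H45

open Filter Topology Finset

/-- the Hilbert space -/
noncomputable abbrev L2 := lp (fun _ : ℤ => ℂ) 2

/-- shifted sequence of moduli -/
noncomputable def nsh (ψ : L2) (d : ℤ) : lp (fun _ : ℤ => ℝ) 2 :=
  ⟨fun n => ‖ψ (n + d)‖, by
    have h := (lp.memℓp ψ).summable (by norm_num)
    apply memℓp_gen
    simp only [norm_norm]
    exact (Equiv.addRight d).summable_iff.2 h⟩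

lemma nsh_apply (ψ : L2) (d n : ℤ) : nsh ψ d n = ‖ψ (n + d)‖ := rfl

lemma norm_nsh (ψ : L2) (d : ℤ) : ‖nsh ψ d‖ = ‖ψ‖ := by
  rw [lp.norm_eq_tsum_rpow (by norm_num), lp.norm_eq_tsum_rpow (by norm_num)]
  congr 1
  simp only [nsh_apply, norm_norm]
  exact (Equiv.addRight d).tsum_eq (fun n => ‖ψ n‖ ^ (2 : ENNReal).toReal)

/-- the dominating sequence -/
noncomputable def dom (ψ : L2) (α : ℝ) (D : Finset ℤ) : lp (fun _ : ℤ => ℝ) 2 :=
  α • ∑ d ∈ D, nsh ψ d

lemma dom_apply (ψ : L2) (α : ℝ) (D : Finset ℤ) (n : ℤ) :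
    dom ψ α D n = α * ∑ d ∈ D, ‖ψ (n + d)‖ := by
  simp only [dom, lp.coeFn_smul, lp.coeFn_sum, Pi.smul_apply, Finset.sum_apply, nsh_apply,
    smul_eq_mul]

lemma norm_dom (ψ : L2) {α : ℝ} (hα : 0 ≤ α) (D : Finset ℤ) :
    ‖dom ψ α D‖ ≤ α * D.card * ‖ψ‖ := by
  rw [dom, norm_smul, Real.norm_eq_abs, abs_of_nonneg hα, mul_assoc]
  apply mul_le_mul_of_nonneg_left _ hα
  refine (norm_sum_le _ _).trans ?_
  simp [norm_nsh]

lemma norm_le_dom (φ ψ χ : L2) {α β : ℝ} (hα : 0 ≤ α) (hβ : 0 ≤ β) (D D' : Finset ℤ)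
    (h : ∀ n, ‖φ n‖ ≤ α * ∑ d ∈ D, ‖ψ (n + d)‖ + β * ∑ d ∈ D', ‖χ (n + d)‖) :
    ‖φ‖ ≤ α * D.card * ‖ψ‖ + β * D'.card * ‖χ‖ := by
  have h1 : ‖φ‖ ≤ ‖dom ψ α D + dom χ β D'‖ := by
    apply lp.norm_mono (by norm_num)
    intro n
    refine (h n).trans ?_
    rw [lp.coeFn_add, Pi.add_apply, dom_apply, dom_apply]
    exact le_abs_self _
  exact h1.trans ((norm_add_le _ _).trans (add_le_add (norm_dom ψ hα D) (norm_dom χ hβ D')))

/-- the formal action of the Hamiltonian -/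
noncomputable def HH (p q : ℝ) (ω : ℤ → Bool) (φ : ℤ → ℂ) (n : ℤ) : ℂ :=
  (offDiag p (ω n) : ℂ) * φ (n - 1) + (offDiag p (ω (n + 1)) : ℂ) * φ (n + 1)
    + (diag q (ω n) : ℂ) * φ n

lemma abs_offDiag_le (p : ℝ) (x : Bool) : |offDiag p x| ≤ 1 + |p| := by
  cases x <;> simp [offDiag]

lemma abs_diag_le (q : ℝ) (x : Bool) : |diag q x| ≤ |q| := by
  cases x <;> simp [diag]

lemma norm_HH_le (p q : ℝ) (ω : ℤ → Bool) (φ : ℤ → ℂ) (n : ℤ) :
    ‖HH p q ω φ n‖ ≤ (1 + |p| + |q|) * ∑ d ∈ ({-1, 0, 1} : Finset ℤ), ‖φ (n + d)‖ := by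
  rw [sum_insert (by decide), sum_insert (by decide), sum_singleton, add_zero, ← sub_eq_add_neg]
  unfold HH
  refine (norm_add₃_le).trans ?_
  simp only [norm_mul, Complex.norm_real, Real.norm_eq_abs]
  have h1 := mul_le_mul_of_nonneg_right (abs_offDiag_le p (ω n)) (norm_nonneg (φ (n - 1)))
  have h2 := mul_le_mul_of_nonneg_right (abs_offDiag_le p (ω (n + 1))) (norm_nonneg (φ (n + 1)))
  have h3 := mul_le_mul_of_nonneg_right (abs_diag_le q (ω n)) (norm_nonneg (φ n))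
  have h4 := mul_nonneg (abs_nonneg q) (norm_nonneg (φ (n - 1)))
  have h5 := mul_nonneg (abs_nonneg q) (norm_nonneg (φ (n + 1)))
  have h6 := mul_nonneg (abs_nonneg p) (norm_nonneg (φ n))
  have h7 := norm_nonneg (φ n)
  linarith

lemma exists_oper (p q : ℝ) (ω : ℤ → Bool) :
    ∃ H : L2 →L[ℂ] L2, ∀ (φ : L2) (n : ℤ), H φ n = HH p q ω φ n := by
  have hm : ∀ φ : L2, Memℓp (fun n => HH p q ω φ n) 2 := fun φ =>
    Memℓp.mono (lp.memℓp (dom φ (1 + |p| + |q|) {-1, 0, 1}))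
      fun n => by rw [dom_apply]; exact norm_HH_le p q ω φ n
  let T : L2 →ₗ[ℂ] L2 :=
    { toFun := fun φ => ⟨fun n => HH p q ω φ n, hm φ⟩
      map_add' := fun φ ψ => by
        ext n
        change HH p q ω (φ + ψ : L2) n = HH p q ω φ n + HH p q ω ψ n
        simp only [HH, lp.coeFn_add, Pi.add_apply]; ring
      map_smul' := fun c φ => by
        ext n
        change HH p q ω (c • φ : L2) n = c * HH p q ω φ n
        simp only [HH, lp.coeFn_smul, Pi.smul_apply, smul_eq_mul]; ring }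
  refine ⟨T.mkContinuous ((1 + |p| + |q|) * 3) fun φ => ?_, fun φ n => rfl⟩
  have := norm_le_dom (T φ) φ φ (α := 1 + |p| + |q|) (β := 0) (by positivity) le_rfl {-1, 0, 1} ∅
    (fun n => by rw [zero_mul, add_zero]; exact norm_HH_le p q ω φ n)
  have e : (({-1, 0, 1} : Finset ℤ).card : ℝ) = 3 := by
    have : ({-1, 0, 1} : Finset ℤ).card = 3 := by decide
    rw [this]; norm_num
  simpa [e] using this

/-- the operator `H - E` is bounded below -/
def BB (p q : ℝ) (ω : ℤ → Bool) (E : ℝ) : Prop :=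
  ∃ C : ℝ, 0 ≤ C ∧ ∀ φ f : L2, (∀ n, f n = HH p q ω φ n - E * φ n) → ‖φ‖ ≤ C * ‖f‖

lemma res_apply (H : L2 →L[ℂ] L2) (E : ℝ) (φ : L2) (n : ℤ) :
    (algebraMap ℝ (L2 →L[ℂ] L2) E - H) φ n = E * φ n - H φ n := by
  rw [Algebra.algebraMap_eq_smul_one]
  simp

/-- the spectrum in the Banach algebra of bounded operators -/
def specOp (p q : ℝ) (ω : ℤ → Bool) : Set ℝ :=
  {E | ∃ H : L2 →L[ℂ] L2, (∀ (φ : L2) (n : ℤ), H φ n = HH p q ω φ n) ∧ E ∈ spectrum ℝ H}

lemma mem_spectrum_iff {p q : ℝ} {ω : ℤ → Bool} {H : L2 →L[ℂ] L2}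
    (hH : ∀ (φ : L2) (n : ℤ), H φ n = HH p q ω φ n) (E : ℝ) :
    E ∈ spectrum ℝ H ↔ E ∈ spec p q ω := by
  rw [spectrum.mem_iff, ContinuousLinearMap.isUnit_iff_bijective]
  set A := algebraMap ℝ (L2 →L[ℂ] L2) E - H with hA
  have hA' : ∀ (φ : L2) n, ham p q ω φ n - E * φ n = (-A φ) n := fun φ n => by
    rw [lp.coeFn_neg, Pi.neg_apply, hA, res_apply, hH, neg_sub]; rfl
  apply not_congr
  constructor
  · intro h
    refine ⟨fun φ hφ => ?_, fun φ hφ ψ hψ e => ?_, fun f hf => ?_⟩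
    · have : (fun n => ham p q ω φ n - E * φ n) = ⇑(-A ⟨φ, hφ⟩) := funext (hA' ⟨φ, hφ⟩)
      change Memℓp (fun n => ham p q ω φ n - E * φ n) 2
      rw [this]
      exact lp.memℓp _
    · have : A ⟨φ, hφ⟩ = A ⟨ψ, hψ⟩ := by
        apply neg_injective
        ext n
        rw [← hA', ← hA']
        exact congrFun e n
      exact congrArg Subtype.val (h.1 this)
    · obtain ⟨φ, hφ⟩ := h.2 (-(⟨f, hf⟩ : L2))
      refine ⟨φ, lp.memℓp φ, funext fun n => ?_⟩
      change ham p q ω φ n - E * φ n = f n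
      rw [hA', hφ, neg_neg]
  · intro h
    refine ⟨fun φ ψ e => ?_, fun f => ?_⟩
    · apply lp.ext
      apply h.injOn (lp.memℓp φ) (lp.memℓp ψ)
      funext n
      change ham p q ω φ n - E * φ n = ham p q ω ψ n - E * ψ n
      rw [hA', hA', e]
    · obtain ⟨φ, hφ, e⟩ := h.surjOn (lp.memℓp (-f))
      refine ⟨⟨φ, hφ⟩, neg_injective ?_⟩
      ext n
      rw [← hA']
      exact congrFun e n

lemma spec_eq_specOp (p q : ℝ) (ω : ℤ → Bool) : spec p q ω = specOp p q ω := by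
  ext E
  constructor
  · intro h
    obtain ⟨H, hH⟩ := exists_oper p q ω
    exact ⟨H, hH, (mem_spectrum_iff hH E).2 h⟩
  · rintro ⟨H, hH, h⟩
    exact (mem_spectrum_iff hH E).1 h

lemma mem_spec_iff (p q : ℝ) (ω : ℤ → Bool) (E : ℝ) : E ∈ spec p q ω ↔ ¬ BB p q ω E := by
  rw [spec_eq_specOp]
  constructor
  · rintro ⟨H, hH, hE⟩ ⟨C, hC0, hC⟩
    apply spectrum.mem_iff.1 hE
    set A := algebraMap ℝ (L2 →L[ℂ] L2) E - H with hA
    have hA' : ∀ (φ : L2) n, A φ n = E * φ n - HH p q ω φ n := fun φ n => by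
      rw [hA, res_apply, hH]
    rw [ContinuousLinearMap.isUnit_iff_bijective,
      ContinuousLinearMap.bijective_iff_dense_range_and_antilipschitz]
    constructor
    · rw [Submodule.topologicalClosure_eq_top_iff, Submodule.eq_bot_iff]
      intro ψ hψ
      have h0 : ∀ n, (0 : L2) n = HH p q ω ψ n - E * ψ n := by
        intro n
        have h1 := (Submodule.mem_orthogonal _ _).1 hψ (A (lp.single 2 n 1)) ⟨_, rfl⟩
        have h2 : A (lp.single 2 n 1) = lp.single 2 n ((E : ℂ) - diag q (ω n))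
            - lp.single 2 (n + 1) (offDiag p (ω (n + 1)) : ℂ)
            - lp.single 2 (n - 1) (offDiag p (ω n) : ℂ) := by
          ext k
          rw [hA']
          simp only [HH, lp.coeFn_sub, Pi.sub_apply, lp.single_apply, Pi.single_apply]
          by_cases c1 : k = n
          · subst c1
            rw [if_neg (show ¬ k - 1 = k by omega), if_neg (show ¬ k + 1 = k by omega),
              if_neg (show ¬ k = k + 1 by omega), if_neg (show ¬ k = k - 1 by omega)]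
            simp
          by_cases c2 : k = n + 1
          · subst c2
            rw [if_neg c1, if_pos (show n + 1 - 1 = n by omega),
              if_neg (show ¬ n + 1 + 1 = n by omega), if_neg c1,
              if_neg (show ¬ n + 1 = n - 1 by omega)]
            simp
          by_cases c3 : k = n - 1
          · subst c3
            rw [if_neg c1, if_neg (show ¬ n - 1 - 1 = n by omega),
              if_pos (show n - 1 + 1 = n by omega), if_neg c1, if_neg c2]
            simp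
          · rw [if_neg c1, if_neg (show ¬ k - 1 = n by omega), if_neg (show ¬ k + 1 = n by omega),
              if_neg c1, if_neg c2, if_neg c3]
            simp
        rw [h2, inner_sub_left, inner_sub_left, lp.inner_single_left, lp.inner_single_left,
          lp.inner_single_left] at h1
        simp only [RCLike.inner_apply, map_sub, Complex.conj_ofReal] at h1
        simp only [HH, lp.coeFn_zero, Pi.zero_apply]
        linear_combination h1
      have := hC ψ 0 h0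
      rw [norm_zero, mul_zero] at this
      exact norm_le_zero_iff.1 this
    · refine ⟨⟨C, hC0⟩, A.antilipschitz_of_bound fun φ => ?_⟩
      have := hC φ (-A φ) (fun n => by rw [lp.coeFn_neg, Pi.neg_apply, hA']; ring)
      rwa [norm_neg] at this
  · intro h
    obtain ⟨H, hH⟩ := exists_oper p q ω
    refine ⟨H, hH, spectrum.mem_iff.2 fun hu => h ?_⟩
    obtain ⟨u, hu⟩ := hu
    refine ⟨‖(↑u⁻¹ : L2 →L[ℂ] L2)‖, norm_nonneg _, fun φ f hf => ?_⟩
    have e1 : (u : L2 →L[ℂ] L2) φ = -f := by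
      ext n
      rw [hu, res_apply, hH, lp.coeFn_neg, Pi.neg_apply, hf]; ring
    have e2 : (↑u⁻¹ : L2 →L[ℂ] L2) ((u : L2 →L[ℂ] L2) φ) = φ := by
      rw [← mul_apply_eq_comp, Units.inv_mul, one_apply_eq_self]
    have := (↑u⁻¹ : L2 →L[ℂ] L2).le_opNorm ((u : L2 →L[ℂ] L2) φ)
    rwa [e2, e1, norm_neg] at this

end Pool.Agent.MP_47b204_mp.H45
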