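import Pool.Agent.MP_47b204_mp.H45.Spec

set_option autoImplicit false

namespace Pool.Agent.MP_47b204_mp.H45

open Filter Topology Finset Matrix
open scoped Matrix.Norms.Operator

variable {p q E : ℝ}

lemma norm_MW_ww (hp : 2 ≤ p) {τ : ℝ} (hτ : ∀ n, ‖(MW p q E (ww n)).trace‖ ≤ τ) :
    ∃ Γ : ℝ, 1 ≤ Γ ∧ τ ≤ Γ ∧ ∀ n, ‖MW p q E (ww n)‖ ≤ Γ ^ (n + 1) := by
  have τ0 : 0 ≤ τ := (norm_nonneg _).trans (hτ 0)
  have a0 := norm_nonneg (MW p q E (ww 0))
  have a1 := norm_nonneg (MW p q E (ww 1))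
  have a2 := norm_nonneg (MW p q E (ww 2))
  set Γ := 2 * τ + 1 + ‖MW p q E (ww 0)‖ + ‖MW p q E (ww 1)‖ + ‖MW p q E (ww 2)‖ with hΓ
  have Γ1 : 1 ≤ Γ := by linarith
  refine ⟨Γ, Γ1, by linarith, fun n => ?_⟩
  induction n using Nat.strong_induction_on with
  | _ n ih =>
    match n with
    | 0 => exact le_trans (by linarith) (le_self_pow₀ Γ1 (by omega))
    | 1 => exact le_trans (by linarith) (le_self_pow₀ Γ1 (by omega))
    | 2 => exact le_trans (by linarith) (le_self_pow₀ Γ1 (by omega))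
    | n + 3 =>
      rw [MW_rec hp]
      have h1 := ih n (by omega)
      have h2 := ih (n + 1) (by omega)
      have h3 : Γ ^ (n + 1) ≤ Γ ^ (n + 3) := pow_le_pow_right₀ Γ1 (by omega)
      have h4 : Γ ^ (n + 1 + 1) ≤ Γ ^ (n + 3) := pow_le_pow_right₀ Γ1 (by omega)
      have h5 : 1 ≤ Γ ^ (n + 3) := one_le_pow₀ Γ1
      refine (norm_add_le _ _).trans ?_
      have h6 := norm_sub_le ((MW p q E (ww (n + 2))).trace • MW p q E (ww (n + 1)))
        ((MW p q E (ww n)).trace • (1 : M2))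
      rw [norm_smul, norm_smul, norm_one, mul_one] at h6
      have h7 : ‖(MW p q E (ww (n + 2))).trace‖ * ‖MW p q E (ww (n + 1))‖ ≤ τ * Γ ^ (n + 3) :=
        mul_le_mul (hτ _) (h2.trans h4) (norm_nonneg _) τ0
      have h8 : τ * 1 ≤ τ * Γ ^ (n + 3) := mul_le_mul_of_nonneg_left h5 τ0
      have h9 : (2 * τ + 1) * Γ ^ (n + 3) ≤ Γ * Γ ^ (n + 3) :=
        mul_le_mul_of_nonneg_right (by linarith) (by linarith)
      rw [pow_succ' Γ (n + 3)]
      linarith [hτ n]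

/-- a solution of the eigenvalue equation to the right of a given site -/
lemma exists_solution (hp : 2 ≤ p) (ω : ℤ → Bool) (m : ℤ) (v0 : Fin 2 → ℂ) :
    ∃ ψ : ℤ → ℂ, Ps p ω ψ m = v0 ∧ ∀ j, m ≤ j → HH p q ω ψ j - E * ψ j = 0 := by
  let Y : ℕ → Fin 2 → ℂ := fun n => Nat.rec v0 (fun i y => tm p q E (ω (m + i)) *ᵥ y) n
  have hY : ∀ i, Y (i + 1) = tm p q E (ω (m + i)) *ᵥ Y i := fun _ => rfl
  let ψ : ℤ → ℂ := fun j => Y (j - m + 1).toNat 1
  have h1 : ∀ i : ℕ, Ps p ω ψ (m + i) = Y i := by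
    intro i
    have e1 : (m + i - m + 1).toNat = i + 1 := by omega
    have e2 : (m + i - 1 - m + 1).toNat = i := by omega
    have := offDiag_ne hp (ω (m + i))
    ext k
    fin_cases k
    · simp only [Ps, ψ, e1, hY]
      simp [tm, mulVec, dotProduct, Fin.sum_univ_two]
      field_simp
    · simp only [Ps, ψ, e2]
      simp
  refine ⟨ψ, by have := h1 0; rw [Nat.cast_zero, add_zero] at this; exact this, fun j hj => ?_⟩
  obtain ⟨i, rfl⟩ : ∃ i : ℕ, j = m + i := ⟨(j - m).toNat, by omega⟩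
  have h2 := Ps_succ (q := q) (E := E) hp ω ψ (m + i)
  have h3 := h1 (i + 1)
  rw [Nat.cast_add, Nat.cast_one, ← add_assoc, h2, h1, hY] at h3
  have := congrFun (add_eq_left.1 h3) 0
  simpa using this

/-- mass of a sequence on a symmetric window -/
noncomputable def NN (ψ : ℤ → ℂ) (c : ℤ) (j : ℕ) : ℝ := ∑ n ∈ Finset.Ico (c - j) (c + j), ‖ψ n‖ ^ 2

lemma NN_succ (ψ : ℤ → ℂ) (c : ℤ) (j : ℕ) :
    NN ψ c (j + 1) = NN ψ c j + (‖ψ (c - j - 1)‖ ^ 2 + ‖ψ (c + j)‖ ^ 2) := by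
  have : Finset.Ico (c - (j + 1 : ℕ)) (c + (j + 1 : ℕ))
      = insert (c - j - 1) (insert (c + j) (Finset.Ico (c - j) (c + j))) := by
    ext n
    simp only [Finset.mem_Ico, mem_insert]
    omega
  rw [NN, this, sum_insert, sum_insert, NN]
  · ring
  · simp
  · simp only [Finset.mem_Ico, mem_insert]; omega

lemma cutoff_est (hp : 2 ≤ p) (ω : ℤ → Bool) {C : ℝ} (hC0 : 0 ≤ C)
    (hC : ∀ φ f : L2, (∀ n, f n = HH p q ω φ n - E * φ n) → ‖φ‖ ≤ C * ‖f‖)
    (ψ : ℤ → ℂ) (c : ℤ) (j : ℕ) (hj : 1 ≤ j)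
    (hψ : ∀ n, c - j ≤ n → HH p q ω ψ n - E * ψ n = 0) :
    NN ψ c j ≤ (C * p * (‖ψ (c - j)‖ + ‖ψ (c - j - 1)‖ + ‖ψ (c + j)‖ + ‖ψ (c + j - 1)‖)) ^ 2 := by
  set φ : L2 := ∑ n ∈ Finset.Ico (c - j) (c + j), lp.single 2 n (ψ n) with hφ
  have hφ' : ∀ n, φ n = if c - j ≤ n ∧ n < c + j then ψ n else 0 := by
    intro n
    simp only [hφ, lp.coeFn_single, lp.coeFn_sum, Finset.sum_apply, Finset.sum_pi_single,
      Finset.mem_Ico]
  have hn : ‖φ‖ ^ 2 = NN ψ c j := by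
    have := lp.norm_sum_single (E := fun _ : ℤ => ℂ) (p := 2) (by norm_num) ψ
      (Finset.Ico (c - j) (c + j))
    simpa [NN, hφ] using this
  set f : L2 := lp.single 2 (c - j - 1) ((offDiag p (ω (c - j)) : ℂ) * ψ (c - j))
    - lp.single 2 (c - j) ((offDiag p (ω (c - j)) : ℂ) * ψ (c - j - 1))
    - lp.single 2 (c + j - 1) ((offDiag p (ω (c + j)) : ℂ) * ψ (c + j))
    + lp.single 2 (c + j) ((offDiag p (ω (c + j)) : ℂ) * ψ (c + j - 1)) with hf
  have hf' : ∀ n, f n = HH p q ω φ n - E * φ n := by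
    intro n
    have h0 := hψ n
    simp only [hf, HH, hφ', lp.coeFn_sub, lp.coeFn_add, Pi.sub_apply, Pi.add_apply,
      lp.single_apply, Pi.single_apply] at h0 ⊢
    by_cases c1 : n = c - j - 1
    · subst c1
      rw [if_pos rfl, if_neg (by omega), if_neg (by omega), if_neg (by omega), if_neg (by omega),
        if_pos (by omega), if_neg (by omega)]
      simp
    by_cases c2 : n = c - j
    · subst c2
      rw [if_neg c1, if_pos rfl, if_neg (by omega), if_neg (by omega), if_neg (by omega),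
        if_pos (by omega), if_pos (by omega)]
      linear_combination -h0 le_rfl
    by_cases c3 : n = c + j - 1
    · subst c3
      rw [if_neg c1, if_neg c2, if_pos rfl, if_neg (by omega), if_pos (by omega),
        if_neg (by omega), if_pos (by omega)]
      have := h0 (by omega)
      rw [sub_add_cancel] at this
      linear_combination -this
    by_cases c4 : n = c + j
    · subst c4
      rw [if_neg c1, if_neg c2, if_neg c3, if_pos rfl, if_pos (by omega),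
        if_neg (by omega), if_neg (by omega)]
      simp
    rw [if_neg c1, if_neg c2, if_neg c3, if_neg c4]
    by_cases c5 : c - j ≤ n ∧ n < c + j
    · rw [if_pos (by omega), if_pos (by omega), if_pos c5]
      linear_combination -h0 c5.1
    · rw [if_neg (by omega), if_neg (by omega), if_neg c5]
      simp
  have h1 := hC φ f hf'
  have k : ∀ (x : Bool) (n : ℤ) (z : ℂ), ‖(lp.single 2 n ((offDiag p x : ℂ) * z) : L2)‖ ≤ p * ‖z‖ := by
    intro x n z
    rw [lp.norm_single (by norm_num), norm_mul]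
    exact mul_le_mul_of_nonneg_right (norm_offDiag hp x).2 (norm_nonneg _)
  have h2 : ‖f‖ ≤ p * (‖ψ (c - j)‖ + ‖ψ (c - j - 1)‖ + ‖ψ (c + j)‖ + ‖ψ (c + j - 1)‖) := by
    rw [hf]
    refine (norm_add_le _ _).trans ?_
    refine (add_le_add_left (norm_sub_le _ _) _).trans ?_
    refine (add_le_add_left (add_le_add_left (norm_sub_le _ _) _) _).trans ?_
    linarith [k (ω (c - j)) (c - j - 1) (ψ (c - j)), k (ω (c - j)) (c - j) (ψ (c - j - 1)),
      k (ω (c + j)) (c + j - 1) (ψ (c + j)), k (ω (c + j)) (c + j) (ψ (c + j - 1))]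
  rw [← hn, mul_assoc]
  exact pow_le_pow_left₀ (norm_nonneg _) (h1.trans (mul_le_mul_of_nonneg_left h2 hC0)) 2

/-- bounded traces prevent the operator from being bounded below -/
lemma not_bb_of_bd (hp : 2 ≤ p) {v ω : ℤ → Bool} (hv : ∀ k : ℕ, v k = fibSeq k) (hω : ω ∈ hull v)
    {b : ℝ} (hb : Bd (init p q b)) : ¬ BB p q ω (2 * p * b + q) := by
  rintro ⟨C, hC0, hC⟩
  obtain ⟨τ, hτ⟩ := hb
  set E := 2 * p * b + q
  have hτ' : ∀ n, ‖(MW p q E (ww n)).trace‖ ≤ 2 * τ := fun n => by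
    rw [norm_trace_ww hp]; linarith [hτ n]
  obtain ⟨Γ, Γ1, Γ2, hΓ⟩ := norm_MW_ww hp hτ'
  set Λ := 4 * (C * p) ^ 2 + 1 with hΛ
  have Λ1 : 1 ≤ Λ := by have := sq_nonneg (C * p); linarith
  have g1 : 1 < 1 + Λ⁻¹ := by have : 0 < Λ⁻¹ := by positivity
                              linarith
  obtain ⟨r, hr⟩ := pow_unbounded_of_one_lt (Γ ^ 2 + 9 * Λ) g1
  set n := 4 * r + 8 with hn
  obtain ⟨m, hm⟩ := hull_occ hv hω n
  set w := fibWord n
  set k := w.length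
  have hk : 2 * (r * (n + 3)) + 1 ≤ k := by
    have this : n * n ≤ 2 * k := sq_le_length_fibWord n
    have e : n * n = 4 * (r * (n + 3)) + (20 * r + 64) := by rw [hn]; ring
    generalize r * (n + 3) = s at e ⊢
    generalize n * n = u at e this
    omega
  set M := MW p q E w
  have hM : ‖M‖ ≤ Γ ^ (n + 2) := hΓ (n + 1)
  have ht : ‖M.trace‖ ≤ Γ ^ (n + 2) :=
    ((hτ' (n + 1)).trans Γ2).trans (le_self_pow₀ Γ1 (by omega))
  set e : Fin 2 → ℂ := ![0, 1]
  have ne : ‖e‖ ≤ 1 := by simpa using norm_pair 0 1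
  obtain ⟨ψ, s1, s2⟩ := exists_solution (q := q) (E := E) hp ω m ((M.trace • (1 : M2) - M) *ᵥ e)
  obtain ⟨o1, o2⟩ := occZ_append.1 hm
  have p1 := propagate (q := q) (E := E) (S := 0) hp ω ψ w m o1
    (fun i _ => by rw [s2 _ (by omega), norm_zero])
  have p2 := propagate (q := q) (E := E) (S := 0) hp ω ψ w _ o2
    (fun i _ => by rw [s2 _ (by omega), norm_zero])
  rw [mul_zero, norm_le_zero_iff, sub_eq_zero] at p1 p2
  rw [s1, mulVec_mulVec, mul_adj (det_MW hp w), one_mulVec] at p1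
  rw [p1] at p2
  set c := m + (k : ℤ) with hc
  have G0 : 0 < Γ ^ (n + 2) := by positivity
  have q1 : ‖Ps p ω ψ (c - k)‖ ≤ 2 * Γ ^ (n + 2) := by
    rw [hc, add_sub_cancel_right, s1]
    refine (linfty_opNorm_mulVec _ _).trans ?_
    have := norm_adj_le M
    nlinarith [norm_nonneg (M.trace • (1 : M2) - M), norm_nonneg e]
  have q2 : ‖Ps p ω ψ (c + k)‖ ≤ Γ ^ (n + 2) := by
    rw [p2]
    refine (linfty_opNorm_mulVec _ _).trans ?_
    nlinarith [norm_nonneg M, norm_nonneg e]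
  have est : ∀ j, 1 ≤ j → j ≤ k → NN ψ c j
      ≤ (C * p * (‖ψ (c - j)‖ + ‖ψ (c - j - 1)‖ + ‖ψ (c + j)‖ + ‖ψ (c + j - 1)‖)) ^ 2 :=
    fun j h1 h2 => cutoff_est hp ω hC0 hC ψ c j h1 fun n hn => s2 n (by omega)
  have mono : Monotone (NN ψ c) := monotone_nat_of_le_succ fun j => by
    rw [NN_succ]; have := sq_nonneg ‖ψ (c - j - 1)‖; have := sq_nonneg ‖ψ (c + j)‖; linarith
  have N0 : ∀ j, 0 ≤ NN ψ c j := fun j => sum_nonneg fun _ _ => sq_nonneg _
  have grow : ∀ j, j + 1 ≤ k → (1 + Λ⁻¹) * NN ψ c j ≤ NN ψ c (j + 2) := by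
    intro j hj
    have h1 := est (j + 1) (by omega) hj
    have h2 := NN_succ ψ c j
    have h3 := NN_succ ψ c (j + 1)
    have e1 : c - ((j + 1 : ℕ) : ℤ) = c - j - 1 := by push_cast; ring
    have e2 : c + ((j + 1 : ℕ) : ℤ) - 1 = c + j := by push_cast; ring
    rw [e2] at h1
    rw [e1] at h1 h3
    set x1 := ‖ψ (c - j - 1)‖
    set x2 := ‖ψ (c - j - 1 - 1)‖
    set x3 := ‖ψ (c + ((j + 1 : ℕ) : ℤ))‖
    set x4 := ‖ψ (c + j)‖
    have h4 : (x1 + x2 + x3 + x4) ^ 2 ≤ 4 * (x1 ^ 2 + x2 ^ 2 + x3 ^ 2 + x4 ^ 2) := by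
      nlinarith [sq_nonneg (x1 - x2), sq_nonneg (x1 - x3), sq_nonneg (x1 - x4), sq_nonneg (x2 - x3),
        sq_nonneg (x2 - x4), sq_nonneg (x3 - x4)]
    have h5 := mul_le_mul_of_nonneg_left h4 (sq_nonneg (C * p))
    have h6 : 0 ≤ x1 ^ 2 + x2 ^ 2 + x3 ^ 2 + x4 ^ 2 := by positivity
    have h7 : NN ψ c j ≤ Λ * (x1 ^ 2 + x2 ^ 2 + x3 ^ 2 + x4 ^ 2) := by
      have := mono (Nat.le_succ j)
      rw [mul_pow] at h1
      rw [hΛ]
      linarith
    have h8 : Λ⁻¹ * NN ψ c j ≤ x1 ^ 2 + x2 ^ 2 + x3 ^ 2 + x4 ^ 2 := by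
      rw [inv_mul_le_iff₀ (by linarith)]; exact h7
    linarith
  have N1 : 1 ≤ NN ψ c 1 := by
    have h1 := NN_succ ψ c 0
    have h2 : ψ (c - 1) = 1 := congrFun p1 1
    simp only [Nat.cast_zero, sub_zero, h2, norm_one, zero_add] at h1
    have := N0 0
    have := sq_nonneg ‖ψ (c + 0)‖
    linarith
  have expo : ∀ i, 2 * i + 1 ≤ k → (1 + Λ⁻¹) ^ i ≤ NN ψ c (2 * i + 1) := by
    intro i
    induction i with
    | zero => intro _; simpa using N1
    | succ i ih =>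
      intro hi
      have h1 := grow (2 * i + 1) (by omega)
      have h2 := mul_le_mul_of_nonneg_left (ih (by omega)) (show 0 ≤ 1 + Λ⁻¹ by linarith)
      rw [pow_succ']
      exact h2.trans h1
  have u1 := (expo _ hk).trans ((mono hk).trans (est k (by omega) le_rfl))
  have u2 : ‖ψ (c - k)‖ + ‖ψ (c - k - 1)‖ + ‖ψ (c + k)‖ + ‖ψ (c + k - 1)‖ ≤ 6 * Γ ^ (n + 2) := by
    have := le_norm_Ps hp ω ψ (c - k)
    have := le_norm_Ps hp ω ψ (c + k)
    linarith [this.1]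
  have u3 : (C * p * (‖ψ (c - k)‖ + ‖ψ (c - k - 1)‖ + ‖ψ (c + k)‖ + ‖ψ (c + k - 1)‖)) ^ 2
      ≤ (C * p * (6 * Γ ^ (n + 2))) ^ 2 := by
    have : 0 ≤ C * p := mul_nonneg hC0 (by linarith)
    gcongr
  have u4 : (C * p * (6 * Γ ^ (n + 2))) ^ 2 ≤ 9 * Λ * (Γ ^ 2) ^ (n + 2) := by
    have : (C * p * (6 * Γ ^ (n + 2))) ^ 2 = 36 * (C * p) ^ 2 * (Γ ^ 2) ^ (n + 2) := by ring
    rw [this, hΛ]
    have : 0 < (Γ ^ 2) ^ (n + 2) := by positivity
    nlinarith
  have u5 : 9 * Λ * (Γ ^ 2) ^ (n + 2) < (1 + Λ⁻¹) ^ (r * (n + 3)) := by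
    rw [pow_mul, pow_succ' _ (n + 2)]
    have a1 : 0 < Γ ^ 2 := by positivity
    exact mul_lt_mul (by linarith) (pow_le_pow_left₀ a1.le (by linarith) _) (by positivity)
      (by positivity)
  linarith

/-- the spectrum is the set of energies with bounded trace orbit -/
lemma Adm.spec_eq {W : ℝ} (h : Adm W p q) {v ω : ℤ → Bool} (hv : ∀ k : ℕ, v k = fibSeq k)
    (hω : ω ∈ hull v) : spec p q ω = (fun b => 2 * p * b + q) '' KK p q := by
  have hp := h.2.1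
  ext E
  obtain ⟨b, rfl⟩ : ∃ b, E = 2 * p * b + q :=
    ⟨(E - q) / (2 * p), by have : p ≠ 0 := by linarith
                           field_simp; ring⟩
  rw [mem_spec_iff]
  constructor
  · intro hE
    rcases h.esc_or_cod b with he | ⟨ι, hι⟩
    · exact absurd (bb_of_esc hp hv hω he) hE
    · exact ⟨b, hι.bd h.1, rfl⟩
  · rintro ⟨b', hb', e⟩
    rw [← e]
    exact not_bb_of_bd hp hv hω hb'

lemma Adm.dm_spec {W : ℝ} (h : Adm W p q) {v ω : ℤ → Bool} (hv : ∀ k : ℕ, v k = fibSeq k)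
    (hω : ω ∈ hull v) : dm (spec p q ω) = dm (KK p q) := by
  have hp : 0 < p := by linarith [h.2.1]
  rw [h.spec_eq hv hω, ← h.range_ee, ← Set.range_comp]
  apply le_antisymm
  · have := dm_range_le h.ee ((fun b => 2 * p * b + q) ∘ h.ee) (2 * p) 1 one_pos fun i j => by
      simp only [Function.comp, Real.rpow_one]
      rw [add_sub_add_right_eq_sub, ← mul_sub, abs_mul, abs_of_pos (by linarith)]
    linarith
  · have := dm_range_le ((fun b => 2 * p * b + q) ∘ h.ee) h.ee (2 * p)⁻¹ 1 one_pos fun i j => by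
      simp only [Function.comp, Real.rpow_one]
      rw [add_sub_add_right_eq_sub, ← mul_sub, abs_mul, abs_of_pos (a := 2 * p) (by linarith),
        inv_mul_cancel_left₀ (by linarith)]
    linarith

end Pool.Agent.MP_47b204_mp.H45
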