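import Pool.Agent.MP_47b204_mp.H45.Defs

set_option autoImplicit false

namespace Pool.Agent.MP_47b204_mp.H45

open Filter Topology

/-- the substitution on words -/
def SS (w : List Bool) : List Bool := w.flatMap fibSub

lemma SS_append (v w : List Bool) : SS (v ++ w) = SS v ++ SS w := List.flatMap_append

lemma fibWord_succ (n : ℕ) : fibWord (n + 1) = SS (fibWord n) := by
  simp only [fibWord, Function.iterate_succ_apply']; rfl

lemma fibWord_add_two (n : ℕ) : fibWord (n + 2) = fibWord (n + 1) ++ fibWord n := by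
  induction n with
  | zero => rfl
  | succ n ih => rw [fibWord_succ (n + 2), ih, SS_append, ← fibWord_succ, ← fibWord_succ, ih]

lemma lt_length_fibWord (n : ℕ) : n < (fibWord n).length := by
  induction n using Nat.strong_induction_on with
  | _ n ih =>
    match n with
    | 0 => decide
    | 1 => decide
    | n + 2 =>
      rw [fibWord_add_two, List.length_append]
      have := ih n (by omega)
      have := ih (n + 1) (by omega)
      omega

lemma sq_le_length_fibWord (n : ℕ) : n * n ≤ 2 * (fibWord n).length := by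
  induction n using Nat.strong_induction_on with
  | _ n ih =>
    match n with
    | 0 => decide
    | 1 => decide
    | n + 2 =>
      rw [fibWord_add_two, List.length_append]
      have := lt_length_fibWord n
      have := ih (n + 1) (by omega)
      have e : (n + 2) * (n + 2) = (n + 1) * (n + 1) + 2 * n + 3 := by ring
      match n with
      | 0 => decide
      | 1 => decide
      | 2 => decide
      | n + 3 =>
        have h1 := lt_length_fibWord (n + 2)
        have h2 := lt_length_fibWord (n + 1)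
        have h3 : (fibWord (n + 3)).length = (fibWord (n + 2)).length + (fibWord (n + 1)).length := by
          rw [fibWord_add_two, List.length_append]
        omega

lemma fibWord_prefix_succ (n : ℕ) : fibWord n <+: fibWord (n + 1) := by
  cases n with
  | zero => decide
  | succ n => rw [fibWord_add_two]; exact List.prefix_append _ _

lemma fibWord_prefix {m n : ℕ} (h : m ≤ n) : fibWord m <+: fibWord n := by
  induction h with
  | refl => exact List.prefix_rfl
  | step _ ih => exact ih.trans (fibWord_prefix_succ _)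

lemma fibSeq_eq {n k : ℕ} (hk : k < (fibWord n).length) : fibSeq k = (fibWord n)[k] := by
  have h1 : k < (fibWord (k + 1)).length := by have := lt_length_fibWord (k + 1); omega
  rw [fibSeq, List.getD_eq_getElem _ _ h1]
  rcases le_total n (k + 1) with h | h
  · exact ((fibWord_prefix h).getElem hk).symm
  · exact (fibWord_prefix h).getElem h1

/-- initial segment of the fixed point -/
def pre (m : ℕ) : List Bool := (List.range m).map fibSeq

lemma length_pre (m : ℕ) : (pre m).length = m := by simp [pre]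

lemma pre_succ (m : ℕ) : pre (m + 1) = pre m ++ [fibSeq m] := by simp [pre, List.range_succ]

lemma eq_pre_of_prefix {w : List Bool} {n : ℕ} (h : w <+: fibWord n) : w = pre w.length := by
  apply List.ext_getElem (length_pre _).symm
  intro i h1 h2
  simp only [pre, List.getElem_map, List.getElem_range]
  rw [fibSeq_eq (n := n) (lt_of_lt_of_le h1 h.length_le)]
  exact h.getElem h1

lemma pre_prefix (m : ℕ) : pre m <+: fibWord m := by
  have h1 := eq_pre_of_prefix (List.take_prefix m (fibWord m))
  rw [List.length_take, min_eq_left (lt_length_fibWord m).le] at h1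
  rw [← h1]
  exact List.take_prefix _ _

/-- position of the image of letter number `m` -/
def pos (m : ℕ) : ℕ := (SS (pre m)).length

lemma SS_pre (m : ℕ) : SS (pre m) = pre (pos m) := by
  obtain ⟨t, ht⟩ := pre_prefix m
  apply eq_pre_of_prefix (n := m + 1)
  rw [fibWord_succ, ← ht, SS_append]
  exact List.prefix_append _ _

/-- the word `w` occurs at position `m` -/
def Occ (m : ℕ) (w : List Bool) : Prop := pre (m + w.length) = pre m ++ w

lemma Occ.img {m : ℕ} {w : List Bool} (h : Occ m w) :
    pos (m + w.length) = pos m + (SS w).length ∧ Occ (pos m) (SS w) := by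
  have h1 := congrArg SS h
  rw [SS_append, SS_pre, SS_pre] at h1
  have h2 := congrArg List.length h1
  rw [List.length_append, length_pre, length_pre] at h2
  exact ⟨h2, by rwa [Occ, ← h2]⟩

lemma occ_nil (m : ℕ) : Occ m [] := by simp [Occ]

lemma occ_single {m : ℕ} {x : Bool} : Occ m [x] ↔ fibSeq m = x := by
  simp [Occ, pre_succ]

lemma exists_pre_add (m k : ℕ) : ∃ t : List Bool, t.length = k ∧ pre (m + k) = pre m ++ t := by
  refine ⟨(List.range k).map fun i => fibSeq (m + i), by simp, ?_⟩
  simp [pre, List.range_add, List.map_map, Function.comp_def]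

lemma occ_append {m : ℕ} {v w : List Bool} :
    Occ m (v ++ w) ↔ Occ m v ∧ Occ (m + v.length) w := by
  unfold Occ
  rw [List.length_append, ← add_assoc]
  constructor
  · intro h
    obtain ⟨t, h1, h2⟩ := exists_pre_add (m + v.length) w.length
    rw [h2, ← List.append_assoc] at h
    have := List.append_inj h (by simp [length_pre])
    exact ⟨this.1, by rw [h2, this.2]⟩
  · rintro ⟨h1, h2⟩
    rw [h2, h1, List.append_assoc]

lemma occ_cons {m : ℕ} {x : Bool} {w : List Bool} :
    Occ m (x :: w) ↔ fibSeq m = x ∧ Occ (m + 1) w := by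
  rw [← occ_single]
  exact occ_append (v := [x])

lemma pos_true {m : ℕ} (h : fibSeq m = true) :
    pos (m + 1) = pos m + 2 ∧ fibSeq (pos m) = true ∧ fibSeq (pos m + 1) = false := by
  obtain ⟨h1, h2⟩ := (occ_single.2 h).img
  have e : SS [true] = [true, false] := rfl
  rw [e] at h1 h2
  rw [occ_cons, occ_single] at h2
  exact ⟨h1, h2⟩

lemma pos_false {m : ℕ} (h : fibSeq m = false) :
    pos (m + 1) = pos m + 1 ∧ fibSeq (pos m) = true := by
  obtain ⟨h1, h2⟩ := (occ_single.2 h).img
  have e : SS [false] = [true] := rfl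
  rw [e] at h1 h2
  exact ⟨h1, occ_single.1 h2⟩

lemma fibSeq_pos (m : ℕ) : fibSeq (pos m) = true := by
  cases h : fibSeq m
  · exact (pos_false h).2
  · exact (pos_true h).2.1

lemma pos_succ_bounds (m : ℕ) : pos m + 1 ≤ pos (m + 1) ∧ pos (m + 1) ≤ pos m + 2 := by
  cases h : fibSeq m
  · have := (pos_false h).1; omega
  · have := (pos_true h).1; omega

lemma pos_add_bounds (m k : ℕ) : pos m + k ≤ pos (m + k) ∧ pos (m + k) ≤ pos m + 2 * k := by
  induction k with
  | zero => simp
  | succ k ih => have := pos_succ_bounds (m + k); rw [← add_assoc m k 1]; omega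

lemma pos_le (m : ℕ) : pos m ≤ 2 * m := by
  have := (pos_add_bounds 0 m).2
  have e : pos 0 = 0 := rfl
  simpa [e] using this

lemma decomp (m : ℕ) : ∃ x, m = pos x ∨ (fibSeq x = true ∧ m = pos x + 1) := by
  induction m with
  | zero => exact ⟨0, Or.inl rfl⟩
  | succ m ih =>
    obtain ⟨x, h | ⟨h1, h2⟩⟩ := ih
    · cases hx : fibSeq x
      · exact ⟨x + 1, Or.inl (by rw [(pos_false hx).1, h])⟩
      · exact ⟨x, Or.inr ⟨hx, by rw [h]⟩⟩
    · exact ⟨x + 1, Or.inl (by rw [(pos_true h1).1, h2])⟩

lemma no_bb {m : ℕ} (h : fibSeq m = false) : fibSeq (m + 1) = true := by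
  obtain ⟨x, e | ⟨h1, e⟩⟩ := decomp m
  · rw [e, fibSeq_pos] at h; exact absurd h (by simp)
  · rw [e, add_assoc, ← (pos_true h1).1]; exact fibSeq_pos _

lemma no_aaa {m : ℕ} (h0 : fibSeq m = true) (h1 : fibSeq (m + 1) = true) :
    fibSeq (m + 2) = false := by
  obtain ⟨x, e | ⟨g1, e⟩⟩ := decomp m
  · cases hx : fibSeq x
    · have h2 := (pos_false hx).1
      have h3 := (pos_true (no_bb hx)).2.2
      rw [h2, ← e] at h3
      exact h3
    · have := (pos_true hx).2.2
      rw [← e, h1] at this
      exact absurd this (by simp)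
  · have := (pos_true g1).2.2
    rw [← e, h0] at this
    exact absurd this (by simp)

lemma SS_rotated {v w : List Bool} (h : v ~r w) : SS v ~r SS w := by
  obtain ⟨n, hn, rfl⟩ := List.isRotated_iff_mod.1 h
  rw [List.rotate_eq_drop_append_take hn, SS_append]
  conv_lhs => rw [← List.take_append_drop n v, SS_append]
  exact List.isRotated_append

/-- a square of a conjugate of `S^k(a)` is centred at position `m` -/
def Sq (k m : ℕ) : Prop := ∃ j w, j + w.length = m ∧ Occ j (w ++ w) ∧ w ~r fibWord k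

lemma Sq.img {k m : ℕ} (h : Sq k m) : Sq (k + 1) (pos m) ∧ Sq (k + 1) (pos m + 1) := by
  obtain ⟨j, w, rfl, h1, h2⟩ := h
  have h3 := SS_rotated h2
  rw [← fibWord_succ] at h3
  obtain ⟨e1, e2⟩ := h1.img
  obtain ⟨e3, -⟩ := (occ_append.1 h1).1.img
  rw [SS_append] at e1 e2
  refine ⟨⟨pos j, SS w, e3.symm, e2, h3⟩, ?_⟩
  obtain ⟨x, w', rfl⟩ : ∃ x w', w = x :: w' := by
    cases w with
    | nil =>
      have := h2.perm.length_eq
      have := lt_length_fibWord k
      simp at *; omega
    | cons x w' => exact ⟨x, w', rfl⟩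
  obtain ⟨t, ht⟩ : ∃ t, SS (x :: w') = true :: t := by
    cases x
    · exact ⟨_, rfl⟩
    · exact ⟨_, rfl⟩
  rw [ht] at e1 e2 e3 h3
  refine ⟨pos j + 1, t ++ [true], by rw [e3]; simp; ring, ?_, ?_⟩
  · have h4 : Occ (pos j) ((true :: t ++ true :: t) ++ [true]) := by
      rw [occ_append, ← e1, occ_single]
      exact ⟨e2, fibSeq_pos _⟩
    have e4 : (true :: t ++ true :: t) ++ [true] = true :: ((t ++ [true]) ++ (t ++ [true])) := by simp
    rw [e4, occ_cons] at h4
    exact h4.2
  · exact (List.isRotated_append (l := t) (l' := [true])).trans h3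

/-- a centred square at one of three consecutive levels -/
def Gd (n m : ℕ) : Prop := Sq n m ∨ Sq (n + 1) m ∨ Sq (n + 2) m

lemma Gd.img {n m : ℕ} (h : Gd n m) : Gd (n + 1) (pos m) ∧ Gd (n + 1) (pos m + 1) := by
  rcases h with h | h | h
  · exact ⟨Or.inl h.img.1, Or.inl h.img.2⟩
  · exact ⟨Or.inr (Or.inl h.img.1), Or.inr (Or.inl h.img.2)⟩
  · exact ⟨Or.inr (Or.inr h.img.1), Or.inr (Or.inr h.img.2)⟩

lemma sq_aa {m : ℕ} (h0 : fibSeq m = true) (h1 : fibSeq (m + 1) = true) : Sq 0 (m + 1) :=
  ⟨m, [true], rfl, by simp [occ_cons, h0, h1, occ_nil], by decide⟩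

lemma gd_base (m : ℕ) : Gd 0 (m + 3) ∨ Gd 0 (m + 4) := by
  cases h2 : fibSeq (m + 2) <;> cases h3 : fibSeq (m + 3)
  · rw [no_bb h2] at h3; exact absurd h3 (by simp)
  · cases h4 : fibSeq (m + 4)
    · have h1 : fibSeq (m + 1) = true := by
        cases h1 : fibSeq (m + 1)
        · rw [no_bb h1] at h2; exact absurd h2 (by simp)
        · rfl
      exact Or.inl (Or.inr (Or.inl ⟨m + 1, [true, false], rfl,
        by simp [occ_cons, add_assoc, h1, h2, h3, h4, occ_nil], by decide⟩))
    · exact Or.inr (Or.inl (sq_aa h3 h4))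
  · have h4 := no_bb h3
    cases h1 : fibSeq (m + 1)
    · exact Or.inl (Or.inr (Or.inl ⟨m + 1, [false, true], rfl,
        by simp [occ_cons, add_assoc, h1, h2, h3, h4, occ_nil], by decide⟩))
    · have h0 : fibSeq m = false := by
        cases h0 : fibSeq m
        · rfl
        · rw [no_aaa h0 h1] at h2; exact absurd h2 (by simp)
      cases h5 : fibSeq (m + 5)
      · exact Or.inr (Or.inr (Or.inl ⟨m + 2, [true, false], rfl,
          by simp [occ_cons, add_assoc, h2, h3, h4, h5, occ_nil], by decide⟩))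
      · exact Or.inl (Or.inr (Or.inr ⟨m, [false, true, true], rfl,
          by simp [occ_cons, add_assoc, h0, h1, h2, h3, h4, h5, occ_nil], by decide⟩))
  · exact Or.inl (Or.inl (sq_aa h2 h3))

lemma gd_everywhere (n : ℕ) : ∃ T, ∀ m ≥ T,
    (Gd n (m + 1) ∨ fibSeq m ≠ fibSeq (m + 1)) ∧ (Gd n m ∨ Gd n (m + 1)) := by
  induction n with
  | zero =>
    refine ⟨3, fun m hm => ⟨?_, ?_⟩⟩
    · cases h0 : fibSeq m <;> cases h1 : fibSeq (m + 1)
      · rw [no_bb h0] at h1; exact absurd h1 (by simp)
      · simp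
      · simp
      · exact Or.inl (Or.inl (sq_aa h0 h1))
    · obtain ⟨k, rfl⟩ : ∃ k, m = k + 3 := ⟨m - 3, by omega⟩
      exact gd_base k
  | succ n ih =>
    obtain ⟨T, hT⟩ := ih
    refine ⟨2 * T + 3, fun m hm => ?_⟩
    obtain ⟨x, hx⟩ := decomp m
    have hxT : T + 1 ≤ x := by have := pos_le x; omega
    obtain ⟨E1, E2⟩ := hT x (by omega)
    rcases hx with rfl | ⟨hx, rfl⟩
    · cases h : fibSeq x
      · have e := (pos_false h).1
        have : Gd (n + 1) (pos x + 1) := by
          rcases E2 with g | g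
          · exact g.img.2
          · rw [← e]; exact g.img.1
        exact ⟨Or.inl this, Or.inr this⟩
      · obtain ⟨-, e2, e3⟩ := pos_true h
        refine ⟨Or.inr (by rw [e2, e3]; simp), Or.inl ?_⟩
        by_cases g : Gd n x
        · exact g.img.1
        obtain ⟨y, rfl⟩ : ∃ y, x = y + 1 := ⟨x - 1, by omega⟩
        obtain ⟨F1, F2⟩ := hT y (by omega)
        have hy : fibSeq y = false := by
          have := F1.resolve_left g
          rw [h] at this
          simpa using this
        rw [(pos_false hy).1]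
        exact (F2.resolve_right g).img.2
    · obtain ⟨e1, -, e3⟩ := pos_true hx
      have e4 : pos x + 1 + 1 = pos (x + 1) := by omega
      refine ⟨Or.inr (by rw [e3, e4, fibSeq_pos]; simp), ?_⟩
      rcases E2 with g | g
      · exact Or.inl g.img.2
      · rw [e4]; exact Or.inr g.img.1

/-- sets with bounded gaps -/
def Syn (A : ℕ → Prop) : Prop := ∃ K, ∀ m, ∃ j, A j ∧ m ≤ j ∧ j ≤ m + K

lemma Syn.img {A B : ℕ → Prop} (h : Syn A) (c : ℕ) (hAB : ∀ j, A j → B (pos j + c)) : Syn B := by
  obtain ⟨K, hK⟩ := h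
  refine ⟨2 * K + 2 + c, fun m => ?_⟩
  obtain ⟨x, hx⟩ := decomp m
  obtain ⟨j, h1, h2, h3⟩ := hK (x + 1)
  obtain ⟨i, rfl⟩ := Nat.exists_eq_add_of_le h2
  have := pos_add_bounds (x + 1) i
  have := pos_succ_bounds x
  exact ⟨_, hAB _ h1, by omega, by omega⟩

lemma syn_square (n : ℕ) : Syn fun j => Occ j (fibWord n ++ fibWord n) := by
  induction n with
  | zero =>
    have h1 : Syn fun j => fibSeq j = true := by
      refine ⟨1, fun m => ?_⟩
      cases h : fibSeq m
      · exact ⟨m + 1, no_bb h, by omega, by omega⟩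
      · exact ⟨m, h, by omega, by omega⟩
    have h2 : Syn fun j => fibSeq j = false := h1.img 1 fun j hj => (pos_true hj).2.2
    refine h2.img 0 fun j hj => ?_
    have h3 := fibSeq_pos (j + 1)
    rw [(pos_false hj).1] at h3
    change Occ _ [true, true]
    simp [occ_cons, fibSeq_pos, h3, occ_nil]
  | succ n ih =>
    refine ih.img 0 fun j hj => ?_
    have := hj.img.2
    rwa [SS_append, ← fibWord_succ] at this

/-- the word `w` occurs at position `m` of a two-sided sequence -/
def OccZ (ω : ℤ → Bool) : ℤ → List Bool → Prop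
  | _, [] => True
  | m, x :: w => ω m = x ∧ OccZ ω (m + 1) w

lemma occZ_append {ω : ℤ → Bool} {v w : List Bool} {m : ℤ} :
    OccZ ω m (v ++ w) ↔ OccZ ω m v ∧ OccZ ω (m + v.length) w := by
  induction v generalizing m with
  | nil => simp [OccZ]
  | cons x v ih =>
    simp only [List.cons_append, OccZ, ih, List.length_cons, and_assoc]
    have : m + 1 + (v.length : ℤ) = m + ((v.length + 1 : ℕ) : ℤ) := by push_cast; ring
    rw [this]

lemma occZ_of_occ {ω : ℤ → Bool} {w : List Bool} {j : ℕ} {m : ℤ} (h : Occ j w)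
    (he : ∀ i < w.length, ω (m + i) = fibSeq (j + i)) : OccZ ω m w := by
  induction w generalizing j m with
  | nil => trivial
  | cons x w ih =>
    rw [occ_cons] at h
    refine ⟨by simpa [h.1] using he 0 (by simp), ih h.2 fun i hi => ?_⟩
    have := he (i + 1) (by simpa using hi)
    rw [add_assoc, add_assoc, add_comm 1, add_comm 1]
    exact_mod_cast this

lemma hull_window {v ω : ℤ → Bool} (hv : ∀ k : ℕ, v k = fibSeq k) (hω : ω ∈ hull v) (c : ℤ)
    (R T : ℕ) : ∃ N : ℕ, T ≤ N ∧ ∀ i : ℕ, i < R → ω (c + i) = fibSeq (N + i) := by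
  obtain ⟨n, hn, ht⟩ := hω
  rw [tendsto_pi_nhds] at ht
  have h1 : ∀ᶠ l in atTop, ∀ i ∈ Finset.range R, v (c + i + n l) = ω (c + i) := by
    rw [eventually_all_finset]
    intro i _
    have := ht (c + i)
    rwa [nhds_discrete, tendsto_pure] at this
  have h2 : ∀ᶠ l in atTop, T + c.natAbs ≤ n l := hn.tendsto_atTop.eventually_ge_atTop _
  obtain ⟨l, g1, g2⟩ := (h1.and h2).exists
  refine ⟨(c + n l).toNat, by omega, fun i hi => ?_⟩
  rw [← g1 i (Finset.mem_range.2 hi), ← hv]
  congr 1
  push_cast
  omega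

/-- centred squares are available next to every position of every element of the hull -/
lemma hull_squares {v ω : ℤ → Bool} (hv : ∀ k : ℕ, v k = fibSeq k) (hω : ω ∈ hull v) (n : ℕ)
    (m : ℤ) : ∃ c, (c = m ∨ c = m + 1) ∧ ∃ k, (k = n ∨ k = n + 1 ∨ k = n + 2) ∧
      ∃ w, w ~r fibWord k ∧ OccZ ω (c - w.length) (w ++ w) := by
  obtain ⟨T, hT⟩ := gd_everywhere n
  set R := (fibWord (n + 2)).length
  obtain ⟨N, hN, he⟩ := hull_window hv hω (m - R) (2 * R + 2) T
  have key : ∀ e : ℕ, e ≤ 1 → Gd n (N + R + e) → ∃ k, (k = n ∨ k = n + 1 ∨ k = n + 2) ∧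
      ∃ w, w ~r fibWord k ∧ OccZ ω (m + e - w.length) (w ++ w) := by
    intro e he1 g
    obtain ⟨k, hk, j, w, h1, h2, h3⟩ : ∃ k, (k = n ∨ k = n + 1 ∨ k = n + 2) ∧ Sq k (N + R + e) := by
      rcases g with g | g | g
      · exact ⟨_, Or.inl rfl, g⟩
      · exact ⟨_, Or.inr (Or.inl rfl), g⟩
      · exact ⟨_, Or.inr (Or.inr rfl), g⟩
    have hl : w.length ≤ R := by
      rw [h3.perm.length_eq]
      exact (fibWord_prefix (by omega)).length_le
    refine ⟨k, hk, w, h3, occZ_of_occ h2 fun i hi => ?_⟩
    rw [List.length_append] at hi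
    have := he (R + e - w.length + i) (by omega)
    convert this using 2
    · push_cast [Nat.cast_sub (show w.length ≤ R + e by omega)]; ring
    · omega
  rcases (hT (N + R) (by omega)).2 with g | g
  · exact ⟨m, Or.inl rfl, by simpa using key 0 (by omega) g⟩
  · exact ⟨m + 1, Or.inr rfl, by simpa using key 1 le_rfl g⟩

lemma hull_occ {v ω : ℤ → Bool} (hv : ∀ k : ℕ, v k = fibSeq k) (hω : ω ∈ hull v) (n : ℕ) :
    ∃ m, OccZ ω m (fibWord n ++ fibWord n) := by
  obtain ⟨K, hK⟩ := syn_square n
  obtain ⟨N, -, he⟩ := hull_window hv hω 0 (K + (fibWord n ++ fibWord n).length) 0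
  obtain ⟨j, h1, h2, h3⟩ := hK N
  obtain ⟨d, rfl⟩ := Nat.exists_eq_add_of_le h2
  refine ⟨d, occZ_of_occ h1 fun i hi => ?_⟩
  have := he (d + i) (by omega)
  rw [zero_add] at this
  rw [add_assoc]
  exact_mod_cast this

lemma hull_nonempty (v : ℤ → Bool) : (hull v).Nonempty := by
  obtain ⟨ω, n, hn, h⟩ := CompactSpace.tendsto_subseq (fun i : ℕ => fun k : ℤ => v (k + i))
  exact ⟨ω, n, hn, h⟩

end Pool.Agent.MP_47b204_mp.H45
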