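import Pool.Agent.MP_47b204_mp.H45.Oper
import Pool.Agent.MP_47b204_mp.H45.Word
import Pool.Agent.MP_47b204_mp.H45.Dim

set_option autoImplicit false

namespace Pool.Agent.MP_47b204_mp.H45

open Filter Topology Finset Matrix
open scoped Matrix.Norms.Operator

/-- two by two complex matrices -/
abbrev M2 := Matrix (Fin 2) (Fin 2) ℂ

/-- one step transfer matrix -/
noncomputable def tm (p q E : ℝ) (x : Bool) : M2 :=
  !![((E : ℂ) - diag q x) / offDiag p x, -(offDiag p x : ℂ); 1 / (offDiag p x : ℂ), 0]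

/-- transfer matrix over a word -/
noncomputable def MW (p q E : ℝ) : List Bool → M2
  | [] => 1
  | x :: w => MW p q E w * tm p q E x

variable {p q E : ℝ}

lemma MW_append (v w : List Bool) : MW p q E (v ++ w) = MW p q E w * MW p q E v := by
  induction v with
  | nil => simp [MW]
  | cons x v ih => simp only [List.cons_append, MW, ih, mul_assoc]

lemma offDiag_ne (hp : 2 ≤ p) (x : Bool) : (offDiag p x : ℂ) ≠ 0 := by
  cases x
  · simp only [offDiag]; exact_mod_cast (by linarith : p ≠ 0)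
  · simp [offDiag]

lemma norm_offDiag (hp : 2 ≤ p) (x : Bool) :
    1 ≤ ‖(offDiag p x : ℂ)‖ ∧ ‖(offDiag p x : ℂ)‖ ≤ p := by
  cases x <;> simp only [offDiag, Complex.norm_real, Real.norm_eq_abs]
  · rw [abs_of_nonneg (by linarith)]; constructor <;> linarith
  · rw [abs_one]; constructor <;> linarith

lemma det_MW (hp : 2 ≤ p) (w : List Bool) : (MW p q E w).det = 1 := by
  induction w with
  | nil => simp [MW]
  | cons x w ih =>
    rw [MW, det_mul, ih, one_mul, tm, det_fin_two_of]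
    have := offDiag_ne hp x
    field_simp
    ring

lemma trace_MW_rot {v w : List Bool} (h : v ~r w) : (MW p q E v).trace = (MW p q E w).trace := by
  obtain ⟨n, hn, rfl⟩ := List.isRotated_iff_mod.1 h
  rw [List.rotate_eq_drop_append_take hn, MW_append, trace_mul_comm, ← MW_append,
    List.take_append_drop]

lemma adj_mul {A : M2} (hA : A.det = 1) : (A.trace • (1 : M2) - A) * A = 1 := by
  rw [det_fin_two] at hA
  ext i j
  fin_cases i <;> fin_cases j <;> simp [Matrix.mul_apply, Fin.sum_univ_two, trace_fin_two] <;>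
    first | linear_combination hA | ring

lemma mul_adj {A : M2} (hA : A.det = 1) : A * (A.trace • (1 : M2) - A) = 1 := by
  have := adj_mul hA
  rw [sub_mul, Matrix.smul_mul, one_mul] at this
  rwa [mul_sub, Matrix.mul_smul, mul_one]

lemma mat_id (A : M2) {B : M2} (hB : B.det = 1) :
    B * (A * B) = (A * B).trace • B - A.trace • (1 : M2) + A := by
  rw [det_fin_two] at hB
  ext i j
  fin_cases i <;> fin_cases j <;> simp [Matrix.mul_apply, Fin.sum_univ_two, trace_fin_two]
  · linear_combination (-(A 1 1)) * hB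
  · linear_combination (A 0 1) * hB
  · linear_combination (A 1 0) * hB
  · linear_combination (-(A 0 0)) * hB

/-- the Fibonacci words starting from the letter `b` -/
def ww : ℕ → List Bool
  | 0 => [false]
  | n + 1 => fibWord n

lemma ww_add_two (n : ℕ) : ww (n + 2) = ww (n + 1) ++ ww n := by
  cases n with
  | zero => rfl
  | succ n => exact fibWord_add_two n

lemma MW_rec (hp : 2 ≤ p) (n : ℕ) : MW p q E (ww (n + 3))
    = (MW p q E (ww (n + 2))).trace • MW p q E (ww (n + 1))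
      - (MW p q E (ww n)).trace • (1 : M2) + MW p q E (ww n) := by
  rw [ww_add_two (n + 1), MW_append, ww_add_two n, MW_append]
  exact mat_id _ (det_MW hp _)

lemma XX_rec (s : St) (n : ℕ) : XX s (n + 3) = 2 * XX s (n + 1) * XX s (n + 2) - XX s n := by
  simp only [XX, Function.iterate_succ_apply', tr]

lemma trace_ww (hp : 2 ≤ p) (b : ℝ) (n : ℕ) :
    (MW p q (2 * p * b + q) (ww n)).trace = 2 * (XX (init p q b) n : ℂ) := by
  have hp0 : (p : ℂ) ≠ 0 := offDiag_ne hp false
  induction n using Nat.strong_induction_on with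
  | _ n ih =>
    match n with
    | 0 =>
      simp only [ww, MW, tm, one_mul, trace_fin_two_of, XX, init, diag, offDiag,
        Function.iterate_zero, id]
      push_cast; field_simp; ring
    | 1 =>
      have : ww 1 = [true] := rfl
      simp only [this, MW, tm, one_mul, trace_fin_two_of, XX, init, diag, offDiag, tr,
        Function.iterate_one]
      push_cast; field_simp; ring
    | 2 =>
      have : ww 2 = [true, false] := rfl
      simp only [this, MW, tm, one_mul, mul_fin_two, trace_fin_two_of, XX, init, diag, offDiag, tr,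
        Function.iterate_succ, Function.iterate_zero, Function.comp, id]
      push_cast; field_simp; ring
    | n + 3 =>
      rw [MW_rec hp, trace_add, trace_sub, trace_smul, trace_smul, trace_one, ih n (by omega),
        ih (n + 1) (by omega), ih (n + 2) (by omega), XX_rec]
      simp only [smul_eq_mul, Fintype.card_fin]
      push_cast; ring

lemma norm_trace_ww (hp : 2 ≤ p) (b : ℝ) (n : ℕ) :
    ‖(MW p q (2 * p * b + q) (ww n)).trace‖ = 2 * |XX (init p q b) n| := by
  rw [trace_ww hp, norm_mul, Complex.norm_real, Real.norm_eq_abs]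
  simp

/-- the state vector of a sequence -/
noncomputable def Ps (p : ℝ) (ω : ℤ → Bool) (φ : ℤ → ℂ) (n : ℤ) : Fin 2 → ℂ :=
  ![(offDiag p (ω n) : ℂ) * φ n, φ (n - 1)]

lemma Ps_succ (hp : 2 ≤ p) (ω : ℤ → Bool) (φ : ℤ → ℂ) (n : ℤ) :
    Ps p ω φ (n + 1) = tm p q E (ω n) *ᵥ Ps p ω φ n + ![HH p q ω φ n - E * φ n, 0] := by
  have := offDiag_ne hp (ω n)
  ext i
  fin_cases i <;> simp [Ps, tm, HH] <;> field_simp
  ring

lemma norm_pair (x y : ℂ) : ‖(![x, y] : Fin 2 → ℂ)‖ ≤ ‖x‖ + ‖y‖ := by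
  rw [pi_norm_le_iff_of_nonneg (by positivity)]
  intro i
  fin_cases i <;> simp

lemma norm_Ps_le (hp : 2 ≤ p) (ω : ℤ → Bool) (φ : ℤ → ℂ) (n : ℤ) :
    ‖Ps p ω φ n‖ ≤ p * (‖φ n‖ + ‖φ (n - 1)‖) := by
  refine (norm_pair _ _).trans ?_
  rw [norm_mul]
  have h1 := mul_le_mul_of_nonneg_right (norm_offDiag hp (ω n)).2 (norm_nonneg (φ n))
  have h2 := mul_le_mul_of_nonneg_right (show 1 ≤ p by linarith) (norm_nonneg (φ (n - 1)))
  linarith

lemma le_norm_Ps (hp : 2 ≤ p) (ω : ℤ → Bool) (φ : ℤ → ℂ) (n : ℤ) :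
    ‖φ n‖ ≤ ‖Ps p ω φ n‖ ∧ ‖φ (n - 1)‖ ≤ ‖Ps p ω φ n‖ := by
  refine ⟨le_trans ?_ (norm_le_pi_norm (Ps p ω φ n) 0), norm_le_pi_norm (Ps p ω φ n) 1⟩
  change _ ≤ ‖(offDiag p (ω n) : ℂ) * φ n‖
  rw [norm_mul]
  have h1 := mul_le_mul_of_nonneg_right (norm_offDiag hp (ω n)).1 (norm_nonneg (φ n))
  linarith

/-- a bound for the one step matrices -/
noncomputable def BT (p q E : ℝ) : ℝ := 1 + ‖tm p q E true‖ + ‖tm p q E false‖

lemma one_le_BT : 1 ≤ BT p q E := by
  unfold BT; linarith [norm_nonneg (tm p q E true), norm_nonneg (tm p q E false)]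

lemma norm_MW_le (w : List Bool) : ‖MW p q E w‖ ≤ BT p q E ^ w.length := by
  induction w with
  | nil => simp [MW]
  | cons x w ih =>
    rw [MW, List.length_cons, pow_succ]
    refine (norm_mul_le _ _).trans (mul_le_mul ih ?_ (norm_nonneg _) (by
      have := one_le_BT (p := p) (q := q) (E := E); positivity))
    unfold BT
    cases x <;> linarith [norm_nonneg (tm p q E true), norm_nonneg (tm p q E false)]

lemma propagate (hp : 2 ≤ p) (ω : ℤ → Bool) (φ : ℤ → ℂ) {S : ℝ} (w : List Bool) (m : ℤ)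
    (hw : OccZ ω m w) (hS : ∀ i : ℕ, i < w.length → ‖HH p q ω φ (m + i) - E * φ (m + i)‖ ≤ S) :
    ‖Ps p ω φ (m + w.length) - MW p q E w *ᵥ Ps p ω φ m‖ ≤ w.length * BT p q E ^ w.length * S := by
  induction w generalizing m with
  | nil => simp [MW]
  | cons x w ih =>
    obtain ⟨h1, h2⟩ := hw
    have h3 := ih (m + 1) h2 fun i hi => by
      have := hS (i + 1) (by simpa using hi)
      rwa [Nat.cast_add, Nat.cast_one, add_comm (i : ℤ) 1, ← add_assoc] at this
    have h4 := hS 0 (by simp)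
    rw [Nat.cast_zero, add_zero] at h4
    have hS0 : 0 ≤ S := (norm_nonneg _).trans h4
    have e : Ps p ω φ (m + (x :: w).length) - MW p q E (x :: w) *ᵥ Ps p ω φ m
        = (Ps p ω φ (m + 1 + w.length) - MW p q E w *ᵥ Ps p ω φ (m + 1))
          + MW p q E w *ᵥ ![HH p q ω φ m - E * φ m, 0] := by
      rw [Ps_succ (q := q) (E := E) hp ω φ m, h1, MW, ← mulVec_mulVec, mulVec_add, List.length_cons,
        Nat.cast_add, Nat.cast_one, add_comm (w.length : ℤ) 1, ← add_assoc]
      abel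
    rw [e]
    refine (norm_add_le _ _).trans ?_
    have h5 := linfty_opNorm_mulVec (MW p q E w) ![HH p q ω φ m - E * φ m, 0]
    have h6 := norm_pair (HH p q ω φ m - E * φ m) 0
    rw [norm_zero, add_zero] at h6
    have hB := one_le_BT (p := p) (q := q) (E := E)
    have h7 : ‖MW p q E w‖ * ‖(![HH p q ω φ m - E * φ m, 0] : Fin 2 → ℂ)‖
        ≤ BT p q E ^ w.length * S :=
      mul_le_mul (norm_MW_le w) (h6.trans h4) (norm_nonneg _) (by positivity)
    have h8 : BT p q E ^ w.length ≤ BT p q E ^ (w.length + 1) := pow_le_pow_right₀ hB (by omega)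
    have h9 : ((w.length : ℝ) + 1) * (BT p q E ^ w.length * S)
        ≤ ((w.length : ℝ) + 1) * (BT p q E ^ (w.length + 1) * S) := by gcongr
    rw [List.length_cons, Nat.cast_add, Nat.cast_one]
    linarith

lemma norm_adj_le (A : M2) : ‖A.trace • (1 : M2) - A‖ ≤ ‖A.trace‖ + ‖A‖ := by
  refine (norm_sub_le _ _).trans ?_
  rw [norm_smul, norm_one, mul_one]

/-- the estimate at the centre of a square -/
lemma square_est (hp : 2 ≤ p) (ω : ℤ → Bool) (φ : ℤ → ℂ) {S Θ : ℝ} {R : ℕ} (w : List Bool) (c : ℤ)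
    (hw : OccZ ω (c - w.length) (w ++ w)) (hR : w.length ≤ R) (hS0 : 0 ≤ S)
    (hS : ∀ j : ℤ, c - R ≤ j → j < c + R → ‖HH p q ω φ j - E * φ j‖ ≤ S) (hΘ : 1 ≤ Θ)
    (ht : Θ ≤ ‖(MW p q E w).trace‖) :
    ‖Ps p ω φ c‖ ≤ Θ⁻¹ * (‖Ps p ω φ (c + w.length)‖ + ‖Ps p ω φ (c - w.length)‖)
      + (2 + BT p q E ^ R) * (R * BT p q E ^ R) * S := by
  obtain ⟨h1, h2⟩ := occZ_append.1 hw
  rw [sub_add_cancel] at h2
  have g1 := propagate (q := q) (E := E) hp ω φ w _ h1 fun i hi => hS _ (by omega) (by omega)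
  have g2 := propagate (q := q) (E := E) hp ω φ w _ h2 fun i hi => hS _ (by omega) (by omega)
  rw [sub_add_cancel] at g1
  have hB := one_le_BT (p := p) (q := q) (E := E)
  have hBR : BT p q E ^ w.length ≤ BT p q E ^ R := pow_le_pow_right₀ hB hR
  have hR' : (w.length : ℝ) ≤ R := by exact_mod_cast hR
  have g3 : (w.length : ℝ) * BT p q E ^ w.length * S ≤ R * BT p q E ^ R * S := by gcongr
  set M := MW p q E w
  set t := M.trace
  set u := Ps p ω φ c
  set v := Ps p ω φ (c - w.length)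
  set y := Ps p ω φ (c + w.length)
  set Z := (R : ℝ) * BT p q E ^ R * S with hZ
  have Z0 : 0 ≤ Z := by positivity
  have e : t • u = y - (y - M *ᵥ u) + v + (t • (1 : M2) - M) *ᵥ (u - M *ᵥ v) := by
    rw [mulVec_sub, mulVec_mulVec, adj_mul (det_MW hp w), one_mulVec, sub_mulVec, smul_mulVec,
      one_mulVec]
    abel
  have n1 : ‖(t • (1 : M2) - M) *ᵥ (u - M *ᵥ v)‖ ≤ (‖t‖ + BT p q E ^ R) * Z :=
    (linfty_opNorm_mulVec _ _).trans (mul_le_mul
      ((norm_adj_le M).trans (by linarith [norm_MW_le (p := p) (q := q) (E := E) w]))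
      (g1.trans g3) (norm_nonneg _) (by positivity))
  have n2 : ‖t‖ * ‖u‖ ≤ ‖y‖ + Z + ‖v‖ + (‖t‖ + BT p q E ^ R) * Z := by
    rw [← norm_smul, e]
    refine (norm_add₃_le).trans ?_
    linarith [norm_sub_le y (y - M *ᵥ u)]
  have t1 : 1 ≤ ‖t‖ := hΘ.trans ht
  have t0 : 0 < ‖t‖ := by linarith
  have n3 : ‖y‖ + ‖v‖ ≤ ‖t‖ * (Θ⁻¹ * (‖y‖ + ‖v‖)) := by
    have : 1 ≤ ‖t‖ * Θ⁻¹ := by rw [← div_eq_mul_inv, le_div_iff₀ (by linarith)]; linarith
    have h := mul_le_mul_of_nonneg_right this (add_nonneg (norm_nonneg y) (norm_nonneg v))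
    linarith
  have n4 : (1 + BT p q E ^ R) * Z ≤ ‖t‖ * ((1 + BT p q E ^ R) * Z) :=
    le_mul_of_one_le_left (by positivity) t1
  apply le_of_mul_le_mul_left _ t0
  rw [mul_assoc (2 + BT p q E ^ R), ← hZ]
  linarith

/-- escaping traces make the operator bounded below -/
lemma bb_of_esc (hp : 2 ≤ p) {v ω : ℤ → Bool} (hv : ∀ k : ℕ, v k = fibSeq k) (hω : ω ∈ hull v)
    {b : ℝ} (he : Esc (init p q b)) : BB p q ω (2 * p * b + q) := by
  obtain ⟨n, hn⟩ := eventually_atTop.1 (he.eventually_ge_atTop (72 * p))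
  set E := 2 * p * b + q
  set R := (fibWord (n + 2)).length
  set Λ : Finset ℤ := {((fibWord n).length : ℤ), ((fibWord (n + 1)).length : ℤ),
    ((fibWord (n + 2)).length : ℤ), -((fibWord n).length : ℤ), -((fibWord (n + 1)).length : ℤ),
    -((fibWord (n + 2)).length : ℤ)} with hΛ
  set D : Finset ℤ := (Λ ×ˢ ({-1, 0, 1} : Finset ℤ)).image fun x => x.1 + x.2 with hD
  have cD : (D.card : ℝ) ≤ 18 := by
    have h1 : D.card ≤ Λ.card * ({-1, 0, 1} : Finset ℤ).card := by
      rw [← card_product]; exact card_image_le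
    have h2 : Λ.card ≤ 6 := card_le_six
    have h3 : ({-1, 0, 1} : Finset ℤ).card = 3 := by decide
    rw [h3] at h1
    exact_mod_cast (by omega : D.card ≤ 18)
  set D' : Finset ℤ := Finset.Icc (-(R : ℤ)) (R + 1)
  set β := (2 + BT p q E ^ R) * (R * BT p q E ^ R)
  have hB := one_le_BT (p := p) (q := q) (E := E)
  have β0 : 0 ≤ β := by positivity
  refine ⟨2 * (β * D'.card), by positivity, fun φ f hf => ?_⟩
  have key := norm_le_dom φ φ f (α := 1 / 36) (by norm_num) β0 D D' (fun m => by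
    obtain ⟨c, hc, k, hk, w, hw1, hw2⟩ := hull_squares hv hω n m
    have hl : w.length = (fibWord k).length := hw1.perm.length_eq
    have hR : w.length ≤ R := by rw [hl]; exact (fibWord_prefix (by omega)).length_le
    have ht : 144 * p ≤ ‖(MW p q E w).trace‖ := by
      rw [trace_MW_rot hw1]
      have := norm_trace_ww (q := q) hp b (k + 1)
      have h2 := hn (k + 1) (by omega)
      change ‖(MW p q E (fibWord k)).trace‖ = _ at this
      linarith
    have h1 := square_est (q := q) (E := E) hp ω φ (S := ∑ d ∈ D', ‖f (m + d)‖) w c hw2 hR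
      (sum_nonneg fun _ _ => norm_nonneg _) (fun j h1 h2 => by
        rw [← hf]
        have := single_le_sum (f := fun d => ‖f (m + d)‖) (fun _ _ => norm_nonneg _)
          (show j - m ∈ D' from Finset.mem_Icc.2 ⟨by omega, by omega⟩)
        simpa using this) (by linarith) ht
    set U := ∑ d ∈ D, ‖φ (m + d)‖
    have hU : ∀ (l e : ℤ), l ∈ Λ → e ∈ ({-1, 0, 1} : Finset ℤ) → ∀ j, j = m + (l + e) → ‖φ j‖ ≤ U := by
      rintro l e hl he j rfl
      exact single_le_sum (f := fun d => ‖φ (m + d)‖) (fun _ _ => norm_nonneg _)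
        (mem_image.2 ⟨(l, e), mem_product.2 ⟨hl, he⟩, rfl⟩)
    have l1 : (w.length : ℤ) ∈ Λ := by
      rw [hl, hΛ]; rcases hk with rfl | rfl | rfl <;> simp
    have l2 : -(w.length : ℤ) ∈ Λ := by
      rw [hl, hΛ]; rcases hk with rfl | rfl | rfl <;> simp
    have u1 : ‖φ (c + w.length)‖ ≤ U :=
      hU _ (c - m) l1 (by rcases hc with rfl | rfl <;> simp) _ (by ring)
    have u2 : ‖φ (c + w.length - 1)‖ ≤ U :=
      hU _ (c - m - 1) l1 (by rcases hc with rfl | rfl <;> simp) _ (by ring)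
    have u3 : ‖φ (c - w.length)‖ ≤ U :=
      hU _ (c - m) l2 (by rcases hc with rfl | rfl <;> simp) _ (by ring)
    have u4 : ‖φ (c - w.length - 1)‖ ≤ U :=
      hU _ (c - m - 1) l2 (by rcases hc with rfl | rfl <;> simp) _ (by ring)
    have v1 := norm_Ps_le hp ω φ (c + w.length)
    have v2 := norm_Ps_le hp ω φ (c - w.length)
    have v3 : ‖φ m‖ ≤ ‖Ps p ω φ c‖ := by
      rcases hc with rfl | rfl
      · exact (le_norm_Ps hp ω φ c).1
      · simpa using (le_norm_Ps hp ω φ (m + 1)).2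
    have p0 : 0 < p := by linarith
    have v4 : ‖Ps p ω φ (c + w.length)‖ + ‖Ps p ω φ (c - w.length)‖ ≤ p * (4 * U) := by
      have a1 : p * (‖φ (c + w.length)‖ + ‖φ (c + w.length - 1)‖) ≤ p * (2 * U) :=
        mul_le_mul_of_nonneg_left (by linarith) p0.le
      have a2 : p * (‖φ (c - w.length)‖ + ‖φ (c - w.length - 1)‖) ≤ p * (2 * U) :=
        mul_le_mul_of_nonneg_left (by linarith) p0.le
      linarith
    have v5 : (144 * p)⁻¹ * (‖Ps p ω φ (c + w.length)‖ + ‖Ps p ω φ (c - w.length)‖)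
        ≤ (144 * p)⁻¹ * (p * (4 * U)) := mul_le_mul_of_nonneg_left v4 (by positivity)
    have v6 : (144 * p)⁻¹ * (p * (4 * U)) = 1 / 36 * U := by field_simp; ring
    linarith)
  have h2 : 1 / 36 * (D.card : ℝ) * ‖φ‖ ≤ 1 / 36 * 18 * ‖φ‖ := by gcongr
  linarith

end Pool.Agent.MP_47b204_mp.H45
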